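import Pool.Agent.H67OM.Main6
import Pool.Agent.N166.ME.Main

set_option autoImplicit false
set_option linter.unusedSectionVars false

/-!
# The adjoint motive decides: the torsors of periods of all motives in the tensor category of an abelian
# variety

Let `A` be an abelian variety over the field `ℚ̄` of algebraic numbers, and let `F ⊆ ℚ̄` be any field.
Let `M` be an André motive in the tensor category generated by `h^1(A)` and the Tate motives, with the
matrix `P` of the periods, and let `G` be *any* algebraic group over `F`, a subgroup of the general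
linear group of the Betti realization of `M`, such that the comparison isomorphism is a point of a torsor
of `G` defined over `ℚ̄`: `P T ∈ G(ℂ)` for some matrix `T` with algebraic entries (`IsPeriodGroup`).
The question is whether every such `G` contains the Mumford-Tate group `MT(M)`, which by theorems of
Deligne and André is the group of the torsor `Ω^And_M` of the motivated periods (over `ℚ̄`).

* `F = ℚ`: this is `Ω^dRB_M = Ω^And_M`, the torsor of periods of the de Rham-Betti realization;
* `F = K`: for a motive over a subfield `K` of `ℚ̄` the group of the smallest `K`-subtorsor `Ω_M` which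
  contains the comparison isomorphism is one of these groups `G`, so `Ω_M` contains the connected
  component given by `MT(M)`; for `K = ℚ̄` this is `Ω_M = Ω^dRB_M = Ω^And_M`.

Let `𝔤` be the Lie algebra of the Hodge group of `A`. It is a motive, the **adjoint motive**, a direct
summand of `Sym² h^1(A)(1)`. A de Rham-Betti subobject of `𝔤` with Betti coefficients in `F`
(`IsSubobject`) is a subspace `W` of `𝔤 ⊗ ℂ` which is spanned by matrices with entries in `F` (in the
Betti basis) and which is spanned by endomorphisms defined over `ℚ̄` in the de Rham structure.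

**Theorem** (`result`). For every abelian variety `A` over `ℚ̄` and every field `F` of algebraic numbers
the following statements are equivalent.

1. Every de Rham-Betti subobject with Betti coefficients in `F` of the adjoint motive `𝔤` is stable under
   `𝔤` (so it is defined by a submotive, `𝔤` being semisimple).
2. Every group `G` over `F` as above for `M = h^1(A)` contains the derived group of `MT(A)`.
3. For every motive `M` in the tensor category generated by `h^1(A)` and the Tate motives, every group
   `G` over `F` as above contains the derived group of `MT(M)`.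

If they hold and the centre of `𝔤` acts trivially on `M` then `G` contains `MT(M)`. If the Hodge group
of `A` is semisimple (no factor of type IV), then 1 is equivalent to: for all `M` in the tensor
category, all `G` contain `MT(M)`, that is, `Ω_M = Ω^dRB_M = Ω^And_M` for all `M` if `F = K = ℚ̄`, and
`Ω^dRB_M = Ω^And_M` for all `M` if `F = ℚ`.

By the theorem of Wüstholz all de Rham-Betti subobjects of `h^1(A)` are given by submotives. So the
question for all motives in the tensor category of `h^1(A)`, in all tensor degrees, is reduced to the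
next case, to subobjects of `Sym² h^1(A)(1)`. For example let `End(A) = ℤ` and let the Hodge group of
`A` be the symplectic group (the general case). Then `Ω_M = Ω^dRB_M = Ω^And_M` for all `M` in the tensor
category generated by `h^1(A)` if and only if `Sym² h^1(A)` is irreducible as a de Rham-Betti object with
coefficients in `ℚ̄`. If `𝔤 ⊗ F` is simple, the criterion is: the de Rham-Betti object `𝔤` with
coefficients in `F` is irreducible.

The statements about the torsors are about all groups `G`, reductive or not, and the coefficients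
`F` are arbitrary; the theorem of Wüstholz (which for coefficients beyond `ℚ` is not available in this
repository) is not used. Nothing is assumed about periods: `AbVar` is the description of an abelian
variety over `ℚ̄` by theta functions (see `Pool/Agent/Y102/AVDefs.lean`, where it is explained why every
abelian variety has it).

## Motives

As `h^1(A)` is dual to `h^1(A)(1)`, the motive `M` is a direct factor of a sum of motives
`h^1(A) ^ {⊗ r i} (w i)`. Its Betti realization is a space of families of multilinear forms with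
rational values, in `r i` variables in `H_1(A, ℚ)`, with a basis `B`. It is the image of a motivated
projector, and the realizations of motivated classes are Hodge classes and de Rham-Betti classes; so
it is stable under the Lie algebra `𝔤` of the endomorphisms of `H_1(A, ℚ)` which annihilate all
classes that are Hodge classes and de Rham-Betti classes (`InLie`), and under the weights. The de Rham
realization has a basis which consists of combinations of products of elements of `H^1_dR(A / ℚ̄)`
with algebraic coefficients. The matrix `P` of the periods expresses it in terms of the basis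
`(2 π i) ^ (w i) B` of the Betti realization (`IsMotive`). By the theorem of Deligne `𝔤` is the Lie
algebra of the Hodge group of `A`, and its image in the endomorphisms of `M` is the Lie algebra of
the Hodge group of `M`. So the complex vector space spanned by the matrices of the elements of `𝔤` and
of the weight operator is the Lie algebra of the connected group `MT(M)` over `ℂ`, and a group `G`
contains `MT(M)` if and only if it contains the exponentials of its elements (`ContainsMT`).

## Proof

1 ⟹ 3. For a derivation `D` of `ℂ` over `ℚ̄` let `y(D) = D(P_A) P_A⁻¹ - (D(2πi) / (4πi))`, where `P_A` is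
the matrix of the periods of `A`. It is in `𝔤 ⊗ ℂ`, and it acts on `M` by `D(P) P⁻¹` up to a multiple of
the weight operator, an element of the Lie algebra of `G`. Let `𝔮 ⊆ 𝔤 ⊗ ℂ` be the set of the elements
which act on `M` by an element of the Lie algebra of `G` up to a multiple of the weight operator. It is a
Lie algebra, it is spanned by matrices with entries in `F`, and it contains all `y(D)`. A subspace `W` of
`𝔤 ⊗ ℂ` which is spanned by matrices over `F`, and is stable under all `[y(D), ·]`, is a de Rham-Betti
subobject: on the de Rham side it is stable under all derivations of `ℂ` over `ℚ̄`, so it is defined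
over `ℚ̄` (`defOver_of_der`, `dr_desc`). So `𝔮` is stable under `𝔤` by 1. The orthogonal complement
`𝔮'` of `𝔮` for the trace form of `H_1(A)`, which is not degenerate on `𝔤`, commutes with `𝔮`. So all
lines in `𝔮'` which are spanned by a matrix over `F` are de Rham-Betti subobjects, and they are stable
under `𝔤` by 1. So `𝔮'` is in the centre of `𝔤 ⊗ ℂ`, and `[𝔤, 𝔤] ⊆ 𝔮`.

2 ⟹ 1. Let `W` be a subobject of `𝔤`. Its stabilizer in `GL(H^1(A))` is an algebraic group over `F`, and
the isomorphisms which map the Betti form of `W` to the de Rham form are a variety over `ℚ̄`, with a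
complex point, the comparison isomorphism. So it has a point over `ℚ̄` (`exists_alg_point`), and the
stabilizer is a period group. So it contains the exponentials of the elements of `[𝔤, 𝔤] ⊗ ℂ`, and
`[𝔤, W] ⊆ W`.
-/

open Module Matrix

noncomputable section

namespace Pool.Agent.Results.MP_f11a48_ag.AdjointMotiveDecides

open Pool.Agent.Y102 Pool.Agent.W516.DR Pool.Agent.H204R3.GP

variable {g : ℕ} (A : AbVar g)

/-! ### The Lie algebra -/

/-- The multilinear forms in `2m` variables in the rational homology. -/
abbrev Form (m : ℕ) : Type := MultilinearMap ℚ (fun _ : Fin m × Fin 2 => A.H1) ℚ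

/-- `φ` is a de Rham-Betti class in `H^1(A) ^ {⊗ 2m} (m)`. -/
def IsDRB {m : ℕ} (φ : Form A m) : Prop :=
  IsDeRhamBettiForm QBar A.dR (2 * Real.pi * Complex.I) m φ

/-- `φ` is a Hodge class in `H^1(A) ^ {⊗ 2m} (m)`. -/
def IsHodge {m : ℕ} (φ : Form A m) : Prop := IsHodgeTensor (A.per : A.H1 →+ (Fin g → ℂ)) φ

/-- The endomorphism `X` annihilates the form `φ` (as a derivation). -/
def Annihilates {m : ℕ} (X : Module.End ℚ A.H1) (φ : Form A m) : Prop :=
  ∀ v, ∑ k, φ (Function.update v k (X (v k))) = 0

/-- `X` is in the Lie algebra `𝔤`: it annihilates all classes that are Hodge classes and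
de Rham-Betti classes. -/
def InLie (X : Module.End ℚ A.H1) : Prop :=
  ∀ (m : ℕ) (φ : Form A m), IsHodge A φ → IsDRB A φ → Annihilates A X φ

/-- The derived algebra `[𝔤, 𝔤]`. -/
def derivedLie : Submodule ℚ (Module.End ℚ A.H1) :=
  Submodule.span ℚ {Z | ∃ X, InLie A X ∧ ∃ Y, InLie A Y ∧ Z = X * Y - Y * X}

/-- The algebra of the endomorphisms of `H_1(A, ℂ)`, as matrices for the basis of the lattice. -/
abbrev EndC (_ : AbVar g) : Type := Matrix (Fin (2 * g)) (Fin (2 * g)) ℂ

/-- The matrix of the extension of an endomorphism of `H_1(A, ℚ)` to `H_1(A, ℂ)`. -/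
def toC (X : Module.End ℚ A.H1) : EndC A := Matrix.of fun i j => (X (Pi.single j 1) i : ℂ)

/-- The complex Lie algebra `𝔤 ⊗ ℂ`, acting on `H_1(A, ℂ)`: the complex vector space of the adjoint
motive. -/
def lieC : Submodule ℂ (EndC A) := Submodule.span ℂ {Y | ∃ X, InLie A X ∧ Y = toC A X}

/-! ### The subobjects of the adjoint motive -/

/-- The endomorphism `Y` of `H_1(A, ℂ)` is defined over `ℚ̄` in the de Rham structure: the transposed
endomorphism maps the basis of `H^1_dR(A / ℚ̄)` to combinations of it with algebraic coefficients. -/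
def IsDeRhamRational (Y : EndC A) : Prop :=
  ∃ c : Fin g ⊕ Fin g → Fin g ⊕ Fin g → ℂ, (∀ k l, IsAlgebraic ℚ (c k l)) ∧
    ∀ k j, ∑ i, Y i j * A.dR k (Pi.single i 1) = ∑ l, c k l * A.dR l (Pi.single j 1)

/-- `W` is a de Rham-Betti subobject, with Betti coefficients in `F`, of the adjoint motive `𝔤`: it is
spanned by matrices with entries in `F`, and it is spanned by endomorphisms which are defined over `ℚ̄`
in the de Rham structure. -/
structure IsSubobject (F : Subfield ℂ) (W : Submodule ℂ (EndC A)) : Prop where
  le : W ≤ lieC A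
  betti : W = Submodule.span ℂ {Y | Y ∈ W ∧ ∀ i j, Y i j ∈ F}
  deRham : W = Submodule.span ℂ {Y | Y ∈ W ∧ IsDeRhamRational A Y}

/-- All de Rham-Betti subobjects with Betti coefficients in `F` of the adjoint motive are stable
under `𝔤`. -/
def SubobjectsAreStable (F : Subfield ℂ) : Prop :=
  ∀ W, IsSubobject A F W → ∀ X, InLie A X → ∀ Y ∈ W, toC A X * Y - Y * toC A X ∈ W

/-! ### Motives -/

variable {s n : ℕ} (r : Fin s → ℕ) (w : Fin s → ℤ)

/-- The Betti realization of the sum of the motives `h^1(A) ^ {⊗ r i} (w i)`: families of multilinear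
forms in `r i` variables in the rational homology. -/
abbrev Tensors : Type := ∀ i : Fin s, MultilinearMap ℚ (fun _ : Fin (r i) => A.H1) ℚ

variable {A r}

/-- `M` is the matrix of the action of the endomorphism `X` of the rational homology of `A` (as a
derivation) on the space of tensors with the basis `B`. -/
def IsLieMatrix (B : Fin n → Tensors A r) (X : Module.End ℚ A.H1)
    (M : Matrix (Fin n) (Fin n) ℚ) : Prop :=
  ∀ a i v, ∑ k, B a i (Function.update v k (X (v k))) = ∑ b, M b a * B b i v

/-- `M` is the matrix of the weight operator: multiplication with `r i - 2 w i` on the tensors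
in `h^1(A) ^ {⊗ r i} (w i)`. -/
def IsWeightMatrix (B : Fin n → Tensors A r) (M : Matrix (Fin n) (Fin n) ℚ) : Prop :=
  ∀ a i v, ((r i : ℚ) - 2 * w i) * B a i v = ∑ b, M b a * B b i v

/-- The subspace with the basis `B` is the Betti realization of a direct factor `M` of the sum of the
motives `h^1(A) ^ {⊗ r i} (w i)`, and `P` is the matrix of the periods of `M` for the basis `B` and for
some basis of the de Rham realization of `M` over `ℚ̄`. -/
structure IsMotive (B : Fin n → Tensors A r) (P : Matrix (Fin n) (Fin n) ℂ) : Prop where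
  /-- `B` is a basis of a subspace -/
  basis : LinearIndependent ℚ B
  /-- the subspace is stable under `𝔤` -/
  lie : ∀ X, InLie A X → ∃ M : Matrix (Fin n) (Fin n) ℚ, IsLieMatrix B X M
  /-- the subspace is stable under the weights -/
  weight : ∃ M : Matrix (Fin n) (Fin n) ℚ, IsWeightMatrix w B M
  /-- the de Rham realization has a basis of elements with algebraic coefficients in terms of the
  tensor products of the elements of the basis of `H^1_dR(A / ℚ̄)` -/
  deRham : ∃ c : Fin n → ∀ i : Fin s, (Fin (r i) → Fin g ⊕ Fin g) → ℂ,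
    (∀ a i J, IsAlgebraic ℚ (c a i J)) ∧ ∀ a i (v : Fin (r i) → A.H1),
      ∑ J, c a i J * ∏ k, A.dR (J k) (v k) =
        (2 * Real.pi * Complex.I) ^ (w i) * ∑ b, P b a * (B b i v : ℂ)
  /-- the matrix of the periods is invertible -/
  det : P.det ≠ 0

/-- The centre of the Lie algebra acts trivially: an element of `𝔤` which acts on `M` like a central
element acts trivially. -/
def CentreActsTrivially (B : Fin n → Tensors A r) : Prop :=
  ∀ X, InLie A X → (∀ Y, InLie A Y → IsLieMatrix B (X * Y - Y * X) 0) → IsLieMatrix B X 0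

variable (A) in
/-- The centre of `𝔤` is zero: the Hodge group of `A` is semisimple, `A` has no factor of type IV. -/
def IsSemisimple : Prop :=
  ∀ X, InLie A X → (∀ Y, InLie A Y → X * Y = Y * X) → X = 0

variable (A) in
/-- The basis of `H^1(A, ℚ)` dual to the basis of the lattice, for the motive `h^1(A)`. -/
def h1Basis (a : Fin (2 * g)) : Tensors A (fun _ : Fin 1 => 1) := fun _ =>
  { toFun := fun v => v 0 a
    map_update_add' := by
      intro _ v k x y
      obtain rfl : k = 0 := Subsingleton.elim _ _
      simp
    map_update_smul' := by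
      intro _ v k c x
      obtain rfl : k = 0 := Subsingleton.elim _ _
      simp }

variable (A) in
/-- The matrix of the periods of `A`. -/
def periods : Matrix (Fin (2 * g)) (Fin (2 * g)) ℂ :=
  Matrix.of fun j k => A.dR (finSumFinEquiv.symm (finCongr (two_mul g) k)) (Pi.single j 1)

/-! ### Algebraic groups, torsors and the Mumford-Tate group -/

/-- A subgroup of `GL_R(ℂ)` defined by polynomials with coefficients in `F`. -/
def IsAlgebraicSubgroup (F : Subfield ℂ) {R : Type} [Fintype R] [DecidableEq R]
    (G : Subgroup (GL R ℂ)) : Prop :=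
  ∃ I : Set (MvPolynomial (R × R) F), ∀ x : GL R ℂ, x ∈ G ↔
    ∀ p ∈ I, MvPolynomial.aeval (fun b : R × R => (x : Matrix R R ℂ) b.1 b.2) p = 0

/-- The torsor `G · T⁻¹` of `G`: the matrices `P` such that `P T` is an element of `G`. It is
defined over `ℚ̄` if `T` is a matrix with algebraic entries. -/
def torsor (G : Subgroup (GL (Fin n) ℂ)) (T : Matrix (Fin n) (Fin n) ℂ) :
    Set (Matrix (Fin n) (Fin n) ℂ) :=
  {P | ∃ x ∈ G, (x : Matrix (Fin n) (Fin n) ℂ) = P * T}

/-- `G` is an algebraic group over `F`, and one of its torsors over `ℚ̄` contains `P`. -/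
def IsPeriodGroup (F : Subfield ℂ) (P : Matrix (Fin n) (Fin n) ℂ) (G : Subgroup (GL (Fin n) ℂ)) :
    Prop :=
  IsAlgebraicSubgroup F G ∧
    ∃ T : Matrix (Fin n) (Fin n) ℂ, (∀ i j, IsAlgebraic ℚ (T i j)) ∧ P ∈ torsor G T

/-- `G` contains the derived group of the Mumford-Tate group of `M`: the exponentials of the elements
of the complex vector space spanned by the matrices of the elements of `[𝔤, 𝔤]`. -/
def ContainsDerived (B : Fin n → Tensors A r) (G : Subgroup (GL (Fin n) ℂ)) : Prop :=
  ∀ Z ∈ Submodule.span ℂ {Z : Matrix (Fin n) (Fin n) ℂ | ∃ X ∈ derivedLie A,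
      ∃ M : Matrix (Fin n) (Fin n) ℚ, IsLieMatrix B X M ∧ Z = M.map fun q => (q : ℂ)},
    ∃ x ∈ G, (x : Matrix (Fin n) (Fin n) ℂ) = NormedSpace.exp Z

/-- `G` contains the Mumford-Tate group of `M`: the exponentials of the elements of the complex vector
space spanned by the matrices of the elements of `𝔤` and of the weight operator. -/
def ContainsMT (B : Fin n → Tensors A r) (G : Subgroup (GL (Fin n) ℂ)) : Prop :=
  ∀ Z ∈ Submodule.span ℂ {Z : Matrix (Fin n) (Fin n) ℂ | ∃ M : Matrix (Fin n) (Fin n) ℚ,
      ((∃ X, InLie A X ∧ IsLieMatrix B X M) ∨ IsWeightMatrix w B M) ∧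
        Z = M.map fun q => (q : ℂ)},
    ∃ x ∈ G, (x : Matrix (Fin n) (Fin n) ℂ) = NormedSpace.exp Z

/-! ### Proofs -/

open Pool.Agent.N208.AM Pool.Agent.H67OM

theorem periods_eq : periods A = Pool.Agent.R917.PM A := by
  ext j k
  obtain ⟨i, rfl⟩ := (Pool.Agent.R917.eqv g).surjective k
  rw [Pool.Agent.R917.PM_apply]
  unfold periods Pool.Agent.R917.eqv
  rw [Matrix.of_apply]
  congr 2
  rw [Equiv.trans_apply]
  simp

theorem rel_iff {B : Fin n → Tensors A r} (X : Module.End ℚ A.H1) (M : Matrix (Fin n) (Fin n) ℚ) :
    Rel B X M ↔ IsLieMatrix B X M := by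
  constructor
  · intro h a i v
    have h1 := congrArg (fun φ : MultilinearMap ℚ (fun _ : Fin (r i) => A.H1) ℚ => φ v) (h a i)
    simp only [dact_apply, _root_.sum_apply, _root_.smul_apply, smul_eq_mul] at h1
    exact h1
  · intro h a i
    refine MultilinearMap.ext fun v => ?_
    rw [dact_apply, _root_.sum_apply, h a i v]
    rfl

theorem wrel_iff {B : Fin n → Tensors A r} (M : Matrix (Fin n) (Fin n) ℚ) :
    WRel w B M ↔ IsWeightMatrix w B M := by
  constructor
  · intro h a i v
    have h1 := congrArg (fun φ : MultilinearMap ℚ (fun _ : Fin (r i) => A.H1) ℚ => φ v) (h a i)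
    simp only [_root_.sum_apply, _root_.smul_apply, smul_eq_mul] at h1
    exact h1
  · intro h a i
    refine MultilinearMap.ext fun v => ?_
    rw [_root_.smul_apply, _root_.sum_apply, smul_eq_mul, h a i v]
    rfl

theorem der_eq : derivedLie A = der A.NA := by
  refine le_antisymm (Submodule.span_mono ?_) (Submodule.span_mono ?_)
  · rintro _ ⟨X, hX, Y, hY, rfl⟩
    exact ⟨X, hX, Y, hY, rfl⟩
  · rintro _ ⟨X, hX, Y, hY, rfl⟩
    exact ⟨X, hX, Y, hY, rfl⟩

theorem mot_of {w : Fin s → ℤ} {B : Fin n → Tensors A r} {P : Matrix (Fin n) (Fin n) ℂ}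
    (hM : IsMotive w B P) : Mot w B P ∧ ∃ Wt, WRel w B Wt := by
  have hwt : ∃ M, WRel w B M := by
    obtain ⟨M, h⟩ := hM.weight
    exact ⟨M, (wrel_iff w M).2 h⟩
  refine ⟨⟨hM.basis, fun X hX => ?_, hwt, hM.det, hM.deRham⟩, hwt⟩
  obtain ⟨M, h⟩ := hM.lie X hX
  exact ⟨M, (rel_iff X M).2 h⟩

theorem adSub_iff {F : Subfield ℂ} : SubobjectsAreStable A F ↔ AdSub A F := by
  constructor
  · intro h W hW X hX Y hY
    exact h W ⟨hW.le, le_antisymm hW.betti (Submodule.span_le.2 fun Y hY => hY.1),
      le_antisymm hW.deRham (Submodule.span_le.2 fun Y hY => hY.1)⟩ X hX Y hY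
  · intro h W hW X hX Y hY
    exact h W ⟨hW.le, hW.betti.le, hW.deRham.le⟩ X hX Y hY

theorem ptF_of {F : Subfield ℂ} {P : Matrix (Fin n) (Fin n) ℂ} {G : Subgroup (GL (Fin n) ℂ)}
    (h : IsPeriodGroup F P G) : PtF F P {M | ∃ x ∈ G, (x : Matrix (Fin n) (Fin n) ℂ) = M} := by
  obtain ⟨hG, T, hT, hP⟩ := h
  have hdet : T.det ≠ 0 := by
    obtain ⟨x, -, hxT⟩ := hP
    intro h0
    have h1 : (x : Matrix (Fin n) (Fin n) ℂ).det = 0 := by
      rw [hxT, Matrix.det_mul, h0, mul_zero]
    exact (Matrix.GeneralLinearGroup.det x).ne_zero h1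
  obtain ⟨T', h1, h2⟩ := Pool.Agent.R917.alg_inv hT hdet
  obtain ⟨x, hx, hxT⟩ := hP
  exact ⟨algGrp_of' hG, T, T', h1, h2, x, hx, hxT⟩

theorem derived_of {F : Subfield ℂ} (hF : ∀ x ∈ F, IsAlgebraic ℚ x)
    (hA : SubobjectsAreStable A F) {w : Fin s → ℤ} {B : Fin n → Tensors A r}
    {P : Matrix (Fin n) (Fin n) ℂ} (hM : IsMotive w B P) {G : Subgroup (GL (Fin n) ℂ)}
    (hG : IsPeriodGroup F P G) : ContainsDerived B G := by
  obtain ⟨h, Wt, hW⟩ := mot_of hM
  have hH := ptF_of hG
  intro Z hZ
  refine exp_span hH.grp ?_ hZ
  rintro _ ⟨X, hX, M, hXM, rfl⟩ d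
  rw [der_eq] at hX
  exact der_stab hF (adSub_iff.1 hA) h hW hH hX ((rel_iff X M).2 hXM) d

theorem all_of {F : Subfield ℂ} (hF : ∀ x ∈ F, IsAlgebraic ℚ x)
    (hA : SubobjectsAreStable A F) {w : Fin s → ℤ} {B : Fin n → Tensors A r}
    {P : Matrix (Fin n) (Fin n) ℂ} (hM : IsMotive w B P) (hc : CentreActsTrivially B)
    {G : Subgroup (GL (Fin n) ℂ)} (hG : IsPeriodGroup F P G) : ContainsMT w B G := by
  obtain ⟨h, Wt, hW⟩ := mot_of hM
  have hH := ptF_of hG
  have hall : ∀ X ∈ A.NA, ∀ M, Rel B X M →
      ∀ d, Pool.Agent.TH119.MX.Stab {M | ∃ x ∈ G, (x : Matrix (Fin n) (Fin n) ℂ) = M} d (cq M) :=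
    fun X hX M hXM d => all_stab hF (adSub_iff.1 hA) h hW hH
      (fun X hX h1 => (rel_iff X 0).2 (hc X hX fun Y hY => (rel_iff _ 0).1 (h1 Y hY))) hX hXM d
  intro Z hZ
  refine exp_span hH.grp ?_ hZ
  rintro _ ⟨M, (⟨X, hX, hXM⟩ | hM), rfl⟩ d
  · exact hall X hX M ((rel_iff X M).2 hXM) d
  · exact wt_stab hF h ((wrel_iff w M).2 hM) hH hall d

theorem h1_lie (X : Module.End ℚ A.H1) : IsLieMatrix (h1Basis A) X
    (Matrix.of fun b a => X (Pi.single b 1) a) := by
  intro a i v
  have h0 : ∑ k, h1Basis A a i (Function.update v k (X (v k))) = X (v 0) a := by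
    have h1 : (Finset.univ : Finset (Fin 1)) = {0} := rfl
    change ∑ k : Fin 1, h1Basis A a i (Function.update v k (X (v k))) = X (v 0) a
    rw [h1, Finset.sum_singleton]
    change (Function.update v 0 (X (v 0)) 0 : A.H1) a = _
    rw [Function.update_self]
  rw [h0]
  have h1 := congrFun (LinearMap.pi_apply_eq_sum_univ X (v 0)) a
  rw [h1, Finset.sum_apply]
  refine Finset.sum_congr rfl fun b _ => ?_
  have h3 : (fun j : Fin (2 * g) => if b = j then (1 : ℚ) else 0) = Pi.single b 1 := by
    funext j
    rw [Pi.single_apply]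
    by_cases h : b = j
    · rw [if_pos h, if_pos h.symm]
    · rw [if_neg h, if_neg fun h' => h h'.symm]
  rw [Pi.smul_apply, smul_eq_mul, mul_comm, h3]
  rfl

theorem h1_sum (k : Fin g ⊕ Fin g) (v : Fin 1 → A.H1) :
    ∑ J : Fin 1 → Fin g ⊕ Fin g, (if J 0 = k then (1 : ℂ) else 0) * ∏ j, A.dR (J j) (v j) =
      A.dR k (v 0) := by
  rw [Finset.sum_eq_single (fun _ => k)]
  · rw [if_pos rfl, one_mul, Fin.prod_univ_one]
  · intro J _ hJ
    rw [if_neg, zero_mul]
    intro h1
    apply hJ
    funext j
    obtain rfl : j = 0 := Subsingleton.elim _ _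
    exact h1
  · intro h
    exact absurd (Finset.mem_univ _) h

theorem h1_dR (a : Fin (2 * g)) (u : A.H1) :
    A.dR (finSumFinEquiv.symm (finCongr (two_mul g) a)) u =
      ∑ b, periods A b a * (u b : ℂ) := by
  have h1 := LinearMap.pi_apply_eq_sum_univ
    (A.dR (finSumFinEquiv.symm (finCongr (two_mul g) a))) u
  rw [h1]
  refine Finset.sum_congr rfl fun b _ => ?_
  have h2 : periods A b a =
    A.dR (finSumFinEquiv.symm (finCongr (two_mul g) a)) (Pi.single b 1) := rfl
  have h3 : (fun j : Fin (2 * g) => if b = j then (1 : ℚ) else 0) = Pi.single b 1 := by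
    funext j
    rw [Pi.single_apply]
    by_cases h : b = j
    · rw [if_pos h, if_pos h.symm]
    · rw [if_neg h, if_neg fun h' => h h'.symm]
  rw [h2, Rat.smul_def, mul_comm, h3]

theorem trivial_of (hA : IsSemisimple A) {w : Fin s → ℤ} {B : Fin n → Tensors A r}
    {P : Matrix (Fin n) (Fin n) ℂ} (hM : IsMotive w B P) : CentreActsTrivially B := by
  obtain ⟨h, -⟩ := mot_of hM
  have hp : A.NA ≤ der A.NA := by
    intro X hX
    obtain ⟨Z, hZ, d, hd, rfl, hc⟩ := full_NA.dec hX
    rw [hA Z hZ hc, zero_add]
    exact hd
  intro X hX h1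
  exact (rel_iff X 0).1 (Pool.Agent.N166.ME.noCentre_of_perfect h hp X hX
    fun Y hY => (rel_iff _ 0).2 (h1 Y hY))

theorem derivedLie_le {X : Module.End ℚ A.H1} (hX : X ∈ derivedLie A) : InLie A X := by
  rw [der_eq] at hX
  exact full_NA.der_le hX

theorem derived_of_MT {B : Fin n → Tensors A r} {G : Subgroup (GL (Fin n) ℂ)}
    (h : ContainsMT w B G) : ContainsDerived B G := by
  intro Z hZ
  refine h Z (Submodule.span_mono ?_ hZ)
  rintro _ ⟨X, hX, M, hXM, rfl⟩
  exact ⟨M, Or.inl ⟨X, derivedLie_le hX, hXM⟩, rfl⟩

theorem isMotive_h1 : IsMotive (fun _ : Fin 1 => (0 : ℤ)) (h1Basis A) (periods A) where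
  basis := by
    rw [Fintype.linearIndependent_iff]
    intro c hc i
    have h1 := congrFun hc 0
    have h2 := congrArg (fun φ : MultilinearMap ℚ (fun _ : Fin 1 => A.H1) ℚ =>
      φ fun _ => Pi.single i 1) h1
    rw [Finset.sum_apply] at h2
    simp only [_root_.sum_apply] at h2
    have h3 : ∀ j, (c j • h1Basis A j) 0 (fun _ => Pi.single i 1) =
        c j * (Pi.single i 1 : A.H1) j := fun j => rfl
    rw [Finset.sum_congr rfl fun j _ => h3 j, Finset.sum_eq_single i] at h2
    · simpa using h2
    · intro j _ hj
      rw [Pi.single_eq_of_ne hj, mul_zero]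
    · intro h
      exact absurd (Finset.mem_univ _) h
  lie X _ := ⟨_, h1_lie X⟩
  weight := ⟨1, fun a i v => by
    rw [Finset.sum_eq_single a]
    · rw [Matrix.one_apply_eq]
      push_cast
      ring
    · intro b _ hb
      rw [Matrix.one_apply_ne hb, zero_mul]
    · intro h
      exact absurd (Finset.mem_univ _) h⟩
  deRham := by
    classical
    refine ⟨fun a _ J => if J 0 = finSumFinEquiv.symm (finCongr (two_mul g) a) then 1 else 0,
      fun a i J => ?_, fun a i v => ?_⟩
    · change IsAlgebraic ℚ (if J 0 = finSumFinEquiv.symm (finCongr (two_mul g) a) then (1 : ℂ)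
        else 0)
      split_ifs
      · exact isAlgebraic_one
      · exact isAlgebraic_zero
    · rw [zpow_zero, one_mul]
      exact (h1_sum _ v).trans (h1_dR a (v 0))
  det := by
    rw [periods_eq]
    exact Pool.Agent.R917.det_PM A

theorem stable_of {F : Subfield ℂ} (hF : ∀ x ∈ F, IsAlgebraic ℚ x)
    (h : ∀ G, IsPeriodGroup F (periods A) G → ContainsDerived (h1Basis A) G) :
    SubobjectsAreStable A F := by
  rw [adSub_iff]
  refine adSub_of hF fun G hG T hT hx X hX t => ?_
  refine h G ⟨hG, T, hT, ?_⟩ _ ?_
  · rw [periods_eq]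
    exact hx
  · refine Submodule.smul_mem _ t (Submodule.subset_span ⟨X, ?_, _, h1_lie X, ?_⟩)
    · rw [der_eq]
      exact hX
    · ext b a
      rfl

/-- **Theorem.** Let `A` be an abelian variety over `ℚ̄` and let `F` be a field of algebraic numbers.
The following statements are equivalent.

1. All de Rham-Betti subobjects, with Betti coefficients in `F`, of the adjoint motive `𝔤` are stable
   under `𝔤`.
2. Every algebraic group over `F` with a torsor over `ℚ̄` which contains the matrix of the periods
   of `A` contains the derived group of `MT(A)`.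
3. For every motive `M` in the tensor category generated by `h^1(A)` and the Tate motives, every
   algebraic group over `F` with a torsor over `ℚ̄` which contains the matrix of the periods of `M`
   contains the derived group of `MT(M)`.

If they hold, and if the centre of `𝔤` acts trivially on the motive `M`, then every algebraic group
over `F` with a torsor over `ℚ̄` which contains the matrix of the periods of `M` contains `MT(M)`. So if
the Hodge group of `A` is semisimple, then 1 is equivalent to this statement for all motives `M`. -/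
theorem result {g : ℕ} (A : AbVar g) (F : Subfield ℂ) (hF : ∀ x ∈ F, IsAlgebraic ℚ x) :
    (SubobjectsAreStable A F ↔
      ∀ G, IsPeriodGroup F (periods A) G → ContainsDerived (h1Basis A) G) ∧
    (SubobjectsAreStable A F ↔
      ∀ (s n : ℕ) (r : Fin s → ℕ) (w : Fin s → ℤ) (B : Fin n → Tensors A r)
        (P : Matrix (Fin n) (Fin n) ℂ), IsMotive w B P →
        ∀ G, IsPeriodGroup F P G → ContainsDerived B G) ∧
    (SubobjectsAreStable A F →
      ∀ (s n : ℕ) (r : Fin s → ℕ) (w : Fin s → ℤ) (B : Fin n → Tensors A r)
        (P : Matrix (Fin n) (Fin n) ℂ), IsMotive w B P → CentreActsTrivially B →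
        ∀ G, IsPeriodGroup F P G → ContainsMT w B G) ∧
    (IsSemisimple A → (SubobjectsAreStable A F ↔
      ∀ (s n : ℕ) (r : Fin s → ℕ) (w : Fin s → ℤ) (B : Fin n → Tensors A r)
        (P : Matrix (Fin n) (Fin n) ℂ), IsMotive w B P →
        ∀ G, IsPeriodGroup F P G → ContainsMT w B G)) := by
  refine ⟨⟨fun h G hG => derived_of hF h isMotive_h1 hG, fun h => stable_of hF h⟩,
    ⟨fun h s n r w B P hM G hG => derived_of hF h hM hG, fun h => stable_of hF fun G hG =>
      h 1 (2 * g) _ _ (h1Basis A) (periods A) isMotive_h1 G hG⟩,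
    fun h s n r w B P hM hc G hG => all_of hF h hM hc hG, fun hA =>
    ⟨fun h s n r w B P hM G hG => all_of hF h hM (trivial_of hA hM) hG, fun h =>
      stable_of hF fun G hG => derived_of_MT _
        (h 1 (2 * g) _ _ (h1Basis A) (periods A) isMotive_h1 G hG)⟩⟩

end Pool.Agent.Results.MP_f11a48_ag.AdjointMotiveDecides
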