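import Pool.Agent.H19PD.All
import Pool.Agent.N208.BT.Fin

set_option autoImplicit false

/-!
# The torsors of periods of all motives of abelian type whose Mumford-Tate domain is a product of balls
# of odd dimension and of domains of type IV of dimension different from three

Let `M` be an André motive over `ℚ̄` of abelian type: a motive in the tensor category generated by
`h^1(A)`, for an abelian variety `A` over `ℚ̄`, and the Tate motives. Let `P` be the matrix of the
comparison isomorphism (the periods) of `M`, and let `G ⊆ GL(H_B(M))` be *any* algebraic group over `ℚ`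
such that the comparison isomorphism is a point of a torsor of `G` defined over `ℚ̄`: `P T ∈ G(ℂ)` for
some matrix `T` with algebraic entries. The smallest such `G` is the de Rham-Betti group of `M`
(`K = ℚ̄`). By theorems of Deligne and André the motivic Galois group of `M` is its Mumford-Tate group
`MT(M)`. The question is whether `Ω^dRB_M = Ω^And_M`, that is, whether every such `G` contains `MT(M)`.
(If `M` is defined over `K = ℚ` then the group of the smallest `ℚ`-subtorsor `Ω_M` is one of these `G`.)

**Main application.** Let every simple factor over `ℚ` of the adjoint group of `MT(M)` be of one of the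
following kinds:

* (a) of type `A_{2m-1}`, `m ≥ 1`, and its domain is a product of balls of dimension `2 m - 1`
  (half planes for `m = 1`);
* (b) of type `B` or `D^ℝ` (including `D_3 = A_3`), and its domain is a product of domains of type IV of
  dimension at least four (the domains of `SO(2, r - 2)`, `r ≥ 6`; for `r = 6` it is the domain
  of `U(2, 2)`).

Then `G` contains the derived group of `MT(M)`. If the centre of the Hodge group acts trivially on `M`,
or if it is rigid, then `G` contains `MT(M)` and `Ω^dRB_M = Ω^And_M`. There is no condition on the number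
of the factors, on the number of the noncompact places, on the fields, or on the arithmetic of the group.

## The theorem

Let `𝔤` be the Lie algebra of the Hodge group of `A`, and let `𝔪` be the Lie algebra over `ℚ` of the
matrices of the action of `[𝔤, 𝔤]` on `M` (`derivedMatrices`); it is the Lie algebra of the derived group
of `MT(M)`. Let `F` be a finite commutative `ℚ`-algebra such that `𝔪` is a Lie algebra over `F` (the
natural choice is the product of the totally real fields over which the simple factors of `𝔪` are
absolutely simple).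

**Parts.** (`Part`) A part of `H_1(A, ℂ)` is a direct summand `W` of the `𝔤`-module `H_1(A, ℂ)` on which
`𝔤 ⊗ ℂ` acts by the sum of a Lie algebra `S` and of scalars, where `S` is of one of the following kinds:

* (`IsSpin`) a sum of Lie algebras `so(r)`, with `r ≥ 6`, in the tensor product of their spin
  representations (with a multiplicity);
* (`IsMiddleExterior`) a sum of Lie algebras `sl(2 m)`, in the tensor product of the middle exterior
  powers `Λ^m` of their standard representations (with a multiplicity).

`W` need not be defined over `ℚ` or `ℝ`, and nothing is assumed about the complement of `W`. Let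
`σ : F → ℂ` be a homomorphism. `A` has a part at `σ` (`HasPartAt`) if there is a part `W` such that the
elements of `[𝔤, 𝔤] ⊗ ℂ` which act trivially on `W` act on `M` by elements of the kernel of
`𝔪 ⊗ ℂ → 𝔪 ⊗_{F, σ} ℂ`. We say that `σ` is small (`IsSmallAt`) if `𝔪 ⊗_{F, σ} ℂ` has dimension at most
three (type `A_1`).

**Forms.** A proper form of `𝔪` (`IsProperForm`) is a Lie algebra `E ⊆ 𝔪` over `ℚ`, `E ≠ 𝔪`, with
`F E = 𝔪`. It is detected by `A` (`Detected`) if the associative algebra generated by the centre of `𝔤`
and by the elements of `[𝔤, 𝔤]` which act on `M` by elements of `E` does not contain `𝔤`.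

**Theorem.** Assume that the homomorphisms `σ` which are small or at which `A` has a part separate the
elements of `F` (so `F` is a product of number fields, and for each of them one embedding `σ` is
sufficient), and that all proper forms are detected. Then `G` contains the derived group of `MT(M)`. If
the centre of `𝔤` acts trivially on `M` or if it is rigid then `G` contains `MT(M)`.

## Proof of the main application

(Explanations; not part of the statement.) Let `M` be in the tensor category of `h^1(A')`, and let the
simple factors of `𝔪` be as in (a) and (b). So `𝔪` is the product of the `𝔪_i`, absolutely simple over the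
totally real fields `F_i`, and `F` is the product of the `F_i`. Let `C` be the `F`-algebra generated by
`𝔪` in the spin representation (the even Clifford algebra) in case (b), and in the middle exterior power
(the discriminant algebra of a central simple algebra of degree `2 m` with a unitary involution, for
`m = 1` a quaternion algebra) in case (a). Let `k` be an imaginary quadratic field and let `W = C ⊗_ℚ k`.
At a noncompact place of `F` the Deligne torus acts on `W` by the lift of the homomorphism which is given
by `M`: the Hodge numbers are `(-1, 0)` and `(0, -1)`, by the classification of Satake and Deligne. At a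
compact place it acts by scalars, through `k ⊗ ℝ = ℂ`. This is the Hodge structure of an abelian
variety `A''` (Satake, Kuga-Satake, Deligne). Let `A = A' × A''`. The Hodge groups of `A` and of `A'` have
the same adjoint group, so `A''` is defined over `ℚ̄`.

*Parts.* Let `σ` be any embedding of one of the `F_i`. The direct summand of `W ⊗ ℂ` given by `σ` and by
an embedding of `k` is a multiple of the spin representation (of the sum of the two half spin
representations for the type `D`), or of the middle exterior power, of `𝔪 ⊗_{F, σ} ℂ`, and the centre of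
`𝔤` acts by scalars. So it is a part at `σ`. (For `m = 1` this is not needed: `σ` is small.)

*Forms.* Let `E` be a proper form. Then `E` is semisimple, and `𝔪 = E ⊗_{F₀} F` with the subalgebra
`F₀ = {f | f E ⊆ E} ≠ F`. So the restriction of a place of `F` to `F₀` determines whether it is compact,
and therefore the centre of `𝔤` acts on `W` by elements of `F₀ ⊗ k`. We have `C = C_E ⊗_{F₀} F` and
`W = C_E ⊗_{F₀} F ⊗_ℚ k`. (For `D_4` the vertex of the vector representation is the special vertex at all
places over a noncompact place of `F₀`, so it is defined over `F₀`.) Let `t` be an `F₀`-linear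
endomorphism of `F` which is not `F`-linear. The endomorphism `1 ⊗ t ⊗ 1` of `W`, extended by zero to
`H_1(A', ℚ)`, commutes with the centre of `𝔤` and with the elements of `[𝔤, 𝔤]` which act by elements
of `E`, but not with `𝔤`. So `E` is detected.

**The other domains.** The principal `sl(2)` in `sp(2 g)`, `g ≥ 2` (this includes the domain of type IV
and dimension three), `so(1, n)` in `su(1, n)` for even `n` (on all exterior powers), `so(p, q)` in
`su(p, q)`, `p ≠ q`, and `su(1, 1) × su(p)` in `su(p, p)`, `p ≥ 3`, are proper subalgebras which act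
irreducibly on the symplectic representations. So the transcendence of periods of weight one gives no
such theorem for the Siegel spaces, for the balls of even dimension, and for the other domains
of `U(p, q)`.

**Examples.** 1. All motives in the tensor category generated by the motives of K3 type (K3 surfaces,
hyperkähler varieties, cubic fourfolds) with real multiplication by arbitrary totally real fields, of
rank `r ≠ 5` over these fields, by the abelian varieties of Kuga-Satake type of the orthogonal groups with
any number of noncompact places `SO(2, r - 2)`, `r ≠ 5`, and by the abelian varieties in 2.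
2. Let `K` be a CM field and let `A'` be an abelian variety with multiplication by `K`, of dimension
`m [K : ℚ]`, `m ≥ 1`, such that the signature is `(1, 2 m - 1)` or `(2 m - 1, 1)` at some places and
definite at the other ones (or, for `m = 2`, `(2, 2)` at some places and definite at the other ones), and
such that the Hodge group contains the special unitary group. If `K` is imaginary quadratic, then `G`
contains `MT(M)` for all `M` in the tensor category of `h^1(A')`: the centre is trivial or becomes rigid
after multiplication of `A` with an elliptic curve with multiplication by `K`. (For example the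
general curves `y^3 = f(x)` of genus four, `deg f = 6`: balls of dimension three.)
3. The motives given by the adjoint representations, on which the centre acts trivially: all
de Rham-Betti classes in their tensor constructions are Hodge classes.

Known before in this repository: one noncompact place, `SpinDomainMotives` (`MP_cbf1af_ag`) and
`BallMotives` (`MP_77d3f5_ag`); `ProductsOfBalls`, where `su(1, n)` is treated under a separation
hypothesis which fails for example if the central simple algebra splits; products of half planes
(`HalfPlaneDomains`, an earlier result of the author of this file, which is the case where all `σ`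
are small; it is replaced by this file). New: any number of noncompact places, arbitrary products of the
domains, without arithmetic conditions.

Nothing is assumed about periods: `AbVar` is the description of an abelian variety over `ℚ̄` by theta
functions (see `Pool/Agent/Y102/AVDefs.lean`, where it is explained why every abelian variety has it),
and the transcendence theorems which are used, the theorem of Schneider and Lang and the
transcendence of `π`, are proved in this repository. The group `G` is not assumed to be reductive.

## Motives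

As `h^1(A)` is dual to `h^1(A)(1)`, the motive `M` is a direct factor of a sum of motives
`h^1(A) ^ {⊗ r i} (w i)`. Its Betti realization is a space of families of multilinear forms with
rational values, in `r i` variables in `H_1(A, ℚ)`, with a basis `B`. It is the image of a motivated
projector, and the realizations of motivated classes are Hodge classes and de Rham-Betti classes; so
it is stable under the Lie algebra `𝔤` of the endomorphisms of `H_1(A, ℚ)` which annihilate all
classes that are Hodge classes and de Rham-Betti classes (`InLie`), and under the weights. The de Rham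
realization has a basis which consists of combinations of products of elements of `H^1_dR(A / ℚ̄)`
with algebraic coefficients. The matrix `P` of the periods expresses it in terms of the basis
`(2 π i) ^ (w i) B` of the Betti realization (`IsMotive`). By the theorem of Deligne `𝔤` is the Lie
algebra of the Hodge group of `A`, and its image in the endomorphisms of `M` is the Lie algebra of
the Hodge group of `M`.

## Proof

Let `𝔮` be the set of the `X` in `𝔤` whose action on `M` is in the Lie algebra of `G` up to a
multiple of the weight operator. By the theorem of Schneider and Lang `𝔮` acts semisimply on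
`H_1(A, ℚ)`, with the same commutant as `𝔤` (`Pool.Agent.N208.AM.qM_full`), so it generates the same
associative algebra. Let `E ⊆ 𝔪` be the Lie algebra of the matrices of the elements of `[𝔮, 𝔮]`.

1. The Lie algebras `S` are rigid: a subalgebra which generates the same associative algebra is equal to
   `S` (`Pool.Agent.Y102.SP.main_col`, `Pool.Agent.R918.MidHyp.all_mem`, from the starting library). So
   `[𝔮, 𝔮] ⊗ ℂ` and `[𝔤, 𝔤] ⊗ ℂ` have the same image in the endomorphisms of a part (`RigPart.der`). If
   `A` has a part at `σ` then `E` generates the vector space `𝔪 ⊗_{F, σ} ℂ` (`local_of_rig`).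
2. The same is true if `σ` is small (`local_of_small`): the image of `E ⊗ ℂ` in `𝔪 ⊗_{F, σ} ℂ` is a
   perfect Lie algebra, so it is everything or zero, and it is not zero since the ideal of `𝔤` generated
   by `[𝔮, 𝔮]` contains `[𝔤, 𝔤]`.
3. `F E = 𝔪` (`span_of_local`): otherwise `𝔪 / F E` has a simple quotient, which is a field `F / I`. Let
   `f ≠ 0` be in the complement of the ideal `I`, and let `σ` be a homomorphism as in the theorem with
   `σ(f) ≠ 0`; its kernel is `I`. The map `𝔪 → F / I → ℂ` is `σ`-linear and vanishes on `E`. Its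
   extension to complex matrices vanishes on `E` and on the kernel at `σ`, so it is zero by 1 and 2.
4. If `E ≠ 𝔪` then `E` is a proper form, and it is detected. But `𝔮` is the sum of `[𝔮, 𝔮]` and of
   elements of the centre of `𝔤`, and it generates an associative algebra which contains `𝔤`,
   a contradiction (`full_all`).
-/

open Module Matrix

noncomputable section

namespace Pool.Agent.Results.MP_f11a48_ag.BallsAndTypeIVDomains

open Pool.Agent.Y102 Pool.Agent.W516.DR Pool.Agent.H204R3.GP

variable {g : ℕ} (A : AbVar g)

/-! ### The Lie algebra -/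

/-- The multilinear forms in `2m` variables in the rational homology. -/
abbrev Form (m : ℕ) : Type := MultilinearMap ℚ (fun _ : Fin m × Fin 2 => A.H1) ℚ

/-- `φ` is a de Rham-Betti class in `H^1(A) ^ {⊗ 2m} (m)`. -/
def IsDRB {m : ℕ} (φ : Form A m) : Prop :=
  IsDeRhamBettiForm QBar A.dR (2 * Real.pi * Complex.I) m φ

/-- `φ` is a Hodge class in `H^1(A) ^ {⊗ 2m} (m)`. -/
def IsHodge {m : ℕ} (φ : Form A m) : Prop := IsHodgeTensor (A.per : A.H1 →+ (Fin g → ℂ)) φ

/-- The endomorphism `X` annihilates the form `φ` (as a derivation). -/
def Annihilates {m : ℕ} (X : Module.End ℚ A.H1) (φ : Form A m) : Prop :=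
  ∀ v, ∑ k, φ (Function.update v k (X (v k))) = 0

/-- `X` is in the Lie algebra `𝔤`: it annihilates all classes that are Hodge classes and
de Rham-Betti classes. -/
def InLie (X : Module.End ℚ A.H1) : Prop :=
  ∀ (m : ℕ) (φ : Form A m), IsHodge A φ → IsDRB A φ → Annihilates A X φ

/-- The derived algebra `[𝔤, 𝔤]`. -/
def derivedLie : Submodule ℚ (Module.End ℚ A.H1) :=
  Submodule.span ℚ {Z | ∃ X, InLie A X ∧ ∃ Y, InLie A Y ∧ Z = X * Y - Y * X}

/-- `X` is an element of the centre of `𝔤`. -/
def InCentre (X : Module.End ℚ A.H1) : Prop := InLie A X ∧ ∀ Y, InLie A Y → Y * X = X * Y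

/-- The algebra of the endomorphisms of `H_1(A, ℂ)`, as matrices for the basis of the lattice. -/
abbrev EndC (_ : AbVar g) : Type := Matrix (Fin (2 * g)) (Fin (2 * g)) ℂ

/-- The matrix of the extension of an endomorphism of `H_1(A, ℚ)` to `H_1(A, ℂ)`. -/
def toC (X : Module.End ℚ A.H1) : EndC A := Matrix.of fun i j => (X (Pi.single j 1) i : ℂ)

/-- The complex Lie algebra `𝔤 ⊗ ℂ`, acting on `H_1(A, ℂ)`. -/
def lieC : Submodule ℂ (EndC A) := Submodule.span ℂ {Y | ∃ X, InLie A X ∧ Y = toC A X}

/-! ### The two kinds of Lie algebras, and parts of the homology -/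

/-- `S` is a sum of Lie algebras `so(r)`, one for each colour, which acts on `ℂ ^ d` by the tensor
product of the spin representations (with a multiplicity): there are anticommuting matrices `E i` with
square `1`, the generator `E i` has the colour `c i`, every colour which occurs occurs at least six
times, and `S` is spanned by the products of two different generators of the same colour. -/
def IsSpin {d : ℕ} (S : Submodule ℂ (Matrix (Fin d) (Fin d) ℂ)) : Prop :=
  ∃ (N k : ℕ) (E : Fin N → Matrix (Fin d) (Fin d) ℂ) (c : Fin N → Fin k),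
    (∀ i, E i * E i = 1) ∧ (∀ i j, i ≠ j → E i * E j = -(E j * E i)) ∧
    (∀ i, 6 ≤ (Finset.univ.filter fun j => c j = c i).card) ∧
    S = Submodule.span ℂ {Y | ∃ i j, i ≠ j ∧ c i = c j ∧ Y = E i * E j}

/-- The canonical anticommutation relations for the creation operators `a σ i` and the annihilation
operators `b σ i` on a space `ℂ ^ N` (a Fock space: a sum of copies of the tensor product over the
colours `σ` of the exterior algebras of `ℂ ^ n`). -/
def Car {k n N : ℕ} (a b : Fin k → Fin n → Matrix (Fin N) (Fin N) ℂ) : Prop :=
  (∀ σ i τ j, a σ i * a τ j = -(a τ j * a σ i)) ∧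
  (∀ σ i τ j, b σ i * b τ j = -(b τ j * b σ i)) ∧
  ∀ σ i τ j, a σ i * b τ j + b τ j * a σ i = if σ = τ ∧ i = j then 1 else 0

/-- The action on the Fock space of the matrix `x`, an element of the Lie algebra `gl(n)` with the
colour `σ`. -/
def act {k n N : ℕ} (a b : Fin k → Fin n → Matrix (Fin N) (Fin N) ℂ) (σ : Fin k)
    (x : Matrix (Fin n) (Fin n) ℂ) : Matrix (Fin N) (Fin N) ℂ :=
  ∑ i, ∑ j, x i j • (a σ i * b σ j)

/-- `S` is a sum of Lie algebras `sl(2 m)`, one for each colour, which acts on `ℂ ^ d` by the tensor
product of the middle exterior powers of the standard representations (with a multiplicity): there is a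
Fock space `ℂ ^ N` with `2 m` modes for each colour such that `ℂ ^ d` is isomorphic (by `Q`, with the
left inverse `P`) to the part of it on which the number of the particles is `m` for each colour, and `S`
consists of the action on this part of the matrices with trace zero. -/
def IsMiddleExterior {d : ℕ} (S : Submodule ℂ (Matrix (Fin d) (Fin d) ℂ)) : Prop :=
  ∃ (N k m : ℕ) (a b : Fin k → Fin (2 * m) → Matrix (Fin N) (Fin N) ℂ)
    (P : Matrix (Fin d) (Fin N) ℂ) (Q : Matrix (Fin N) (Fin d) ℂ),
    Car a b ∧ P * Q = 1 ∧
    (∀ v, (∃ w, v = Q.mulVec w) ↔ ∀ σ, (act a b σ 1).mulVec v = (m : ℂ) • v) ∧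
    S = Submodule.span ℂ {Y | ∃ σ x, Matrix.trace x = 0 ∧ Y = P * act a b σ x * Q}

/-- **A part** `W` of `H_1(A, ℂ)`: a space of dimension `d`, with the inclusion `P` and the projection
`Q`, such that the projector `P * Q` commutes with `𝔤`, and `𝔤 ⊗ ℂ` acts on `W` (by `Q * toC A X * P`) by
the Lie algebra `S`, which is of one of the two kinds, up to scalars. -/
structure Part {d : ℕ} (S : Submodule ℂ (Matrix (Fin d) (Fin d) ℂ))
    (P : Matrix (Fin (2 * g)) (Fin d) ℂ) (Q : Matrix (Fin d) (Fin (2 * g)) ℂ) : Prop where
  /-- the kind of the Lie algebra -/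
  kind : IsSpin S ∨ IsMiddleExterior S
  /-- `Q` is a projection to the summand -/
  proj : Q * P = 1
  /-- the image of `P * Q` and its complement are stable under `𝔤` -/
  stable : ∀ X, InLie A X → P * Q * toC A X = toC A X * (P * Q)
  /-- `𝔤` acts by `S` and scalars -/
  acts : ∀ X, InLie A X → ∃ t : ℂ, Q * toC A X * P + t • (1 : Matrix (Fin d) (Fin d) ℂ) ∈ S
  /-- all elements of `S` occur -/
  onto : ∀ Z ∈ S, ∃ Y ∈ lieC A, Z = Q * Y * P

/-! ### Motives -/

variable {s n : ℕ} (r : Fin s → ℕ) (w : Fin s → ℤ)

/-- The Betti realization of the sum of the motives `h^1(A) ^ {⊗ r i} (w i)`: families of multilinear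
forms in `r i` variables in the rational homology. -/
abbrev Tensors : Type := ∀ i : Fin s, MultilinearMap ℚ (fun _ : Fin (r i) => A.H1) ℚ

variable {A r}

/-- `M` is the matrix of the action of the endomorphism `X` of the rational homology of `A` (as a
derivation) on the space of tensors with the basis `B`. -/
def IsLieMatrix (B : Fin n → Tensors A r) (X : Module.End ℚ A.H1)
    (M : Matrix (Fin n) (Fin n) ℚ) : Prop :=
  ∀ a i v, ∑ k, B a i (Function.update v k (X (v k))) = ∑ b, M b a * B b i v

/-- The subspace with the basis `B` is the Betti realization of a direct factor `M` of the sum of the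
motives `h^1(A) ^ {⊗ r i} (w i)`, and `P` is the matrix of the periods of `M` for the basis `B` and for
some basis of the de Rham realization of `M` over `ℚ̄`. -/
structure IsMotive (B : Fin n → Tensors A r) (P : Matrix (Fin n) (Fin n) ℂ) : Prop where
  /-- `B` is a basis of a subspace -/
  basis : LinearIndependent ℚ B
  /-- the subspace is stable under `𝔤` -/
  lie : ∀ X, InLie A X → ∃ M : Matrix (Fin n) (Fin n) ℚ, IsLieMatrix B X M
  /-- the subspace is stable under the weights -/
  weight : ∃ M : Matrix (Fin n) (Fin n) ℚ, ∀ a i v,
    ((r i : ℚ) - 2 * w i) * B a i v = ∑ b, M b a * B b i v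
  /-- the de Rham realization has a basis of elements with algebraic coefficients in terms of the
  tensor products of the elements of the basis of `H^1_dR(A / ℚ̄)` -/
  deRham : ∃ c : Fin n → ∀ i : Fin s, (Fin (r i) → Fin g ⊕ Fin g) → ℂ,
    (∀ a i J, IsAlgebraic ℚ (c a i J)) ∧ ∀ a i (v : Fin (r i) → A.H1),
      ∑ J, c a i J * ∏ k, A.dR (J k) (v k) =
        (2 * Real.pi * Complex.I) ^ (w i) * ∑ b, P b a * (B b i v : ℂ)
  /-- the matrix of the periods is invertible -/
  det : P.det ≠ 0

/-- The Lie algebra `𝔪` of the matrices of the action on `M` of the elements of `[𝔤, 𝔤]`. -/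
def derivedMatrices (B : Fin n → Tensors A r) : Submodule ℚ (Matrix (Fin n) (Fin n) ℚ) where
  carrier := {M | ∃ X ∈ derivedLie A, IsLieMatrix B X M}
  zero_mem' := ⟨0, Submodule.zero_mem _, fun a i v => by
    have h1 : ∀ k, B a i (Function.update v k ((0 : Module.End ℚ A.H1) (v k))) = 0 := fun k => by
      rw [LinearMap.zero_apply, MultilinearMap.map_update_zero]
    have h2 : ∀ b, (0 : Matrix (Fin n) (Fin n) ℚ) b a * B b i v = 0 := fun b => by
      rw [Matrix.zero_apply, zero_mul]
    rw [Finset.sum_congr rfl fun k _ => h1 k, Finset.sum_congr rfl fun b _ => h2 b,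
      Finset.sum_const_zero, Finset.sum_const_zero]⟩
  add_mem' := by
    rintro M M' ⟨X, hX, h⟩ ⟨X', hX', h'⟩
    refine ⟨X + X', Submodule.add_mem _ hX hX', fun a i v => ?_⟩
    rw [Finset.sum_congr rfl fun k _ => by
        rw [LinearMap.add_apply, MultilinearMap.map_update_add],
      Finset.sum_add_distrib, h a i v, h' a i v, ← Finset.sum_add_distrib]
    exact Finset.sum_congr rfl fun b _ => by rw [Matrix.add_apply, add_mul]
  smul_mem' := by
    rintro c M ⟨X, hX, h⟩
    refine ⟨c • X, Submodule.smul_mem _ c hX, fun a i v => ?_⟩
    rw [Finset.sum_congr rfl fun k _ => by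
        rw [LinearMap.smul_apply, MultilinearMap.map_update_smul, smul_eq_mul],
      ← Finset.mul_sum, h a i v, Finset.mul_sum]
    exact Finset.sum_congr rfl fun b _ => by rw [Matrix.smul_apply, smul_eq_mul, mul_assoc]

/-! ### Places and forms -/

variable {F : Type} [CommRing F]

/-- `F` acts on `𝔪` (by `μ`) such that the Lie bracket is linear over `F`. -/
def IsLieLinear (B : Fin n → Tensors A r) (μ : F →+* Module.End ℚ (derivedMatrices B)) : Prop :=
  ∀ (f : F) (x y z : derivedMatrices B),
    (z : Matrix (Fin n) (Fin n) ℚ) = (x : Matrix (Fin n) (Fin n) ℚ) * y -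
      (y : Matrix (Fin n) (Fin n) ℚ) * x →
    (μ f z : Matrix (Fin n) (Fin n) ℚ) = (μ f x : Matrix (Fin n) (Fin n) ℚ) * y -
      (y : Matrix (Fin n) (Fin n) ℚ) * (μ f x : Matrix (Fin n) (Fin n) ℚ)

/-- The kernel of `𝔪 ⊗ ℂ → 𝔪 ⊗_{F, σ} ℂ`, where `F` acts on `𝔪` by `μ`. -/
def kernelAt (B : Fin n → Tensors A r) (μ : F →+* Module.End ℚ (derivedMatrices B))
    (σ : F →+* ℂ) : Submodule ℂ (Matrix (Fin n) (Fin n) ℂ) :=
  Submodule.span ℂ {y | ∃ (f : F) (z : derivedMatrices B),
    y = (μ f z : Matrix (Fin n) (Fin n) ℚ).map (fun q => (q : ℂ)) -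
      σ f • (z : Matrix (Fin n) (Fin n) ℚ).map (fun q => (q : ℂ))}

/-- `A` has a part at `σ`: a part such that if an element of `[𝔤, 𝔤] ⊗ ℂ`, which acts on `H_1(A, ℂ)` by
`p.1` and on `M` by `p.2`, acts trivially on the part, then `p.2` is in the kernel at `σ`. -/
def HasPartAt (B : Fin n → Tensors A r) (μ : F →+* Module.End ℚ (derivedMatrices B))
    (σ : F →+* ℂ) : Prop :=
  ∃ (d : ℕ) (S : Submodule ℂ (Matrix (Fin d) (Fin d) ℂ)) (P : Matrix (Fin (2 * g)) (Fin d) ℂ)
    (Q : Matrix (Fin d) (Fin (2 * g)) ℂ), Part A S P Q ∧
    ∀ p ∈ Submodule.span ℂ {p : EndC A × Matrix (Fin n) (Fin n) ℂ | ∃ X ∈ derivedLie A,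
      ∃ M : Matrix (Fin n) (Fin n) ℚ, IsLieMatrix B X M ∧
        p = (toC A X, M.map fun q => (q : ℂ))},
      P * Q * p.1 = 0 → p.2 ∈ kernelAt B μ σ

/-- `𝔪 ⊗_{F, σ} ℂ` has dimension at most three. -/
def IsSmallAt (B : Fin n → Tensors A r) (μ : F →+* Module.End ℚ (derivedMatrices B))
    (σ : F →+* ℂ) : Prop :=
  ∃ a b c : Matrix (Fin n) (Fin n) ℂ, ∀ M ∈ derivedMatrices B,
    M.map (fun q => (q : ℂ)) ∈ Submodule.span ℂ {a, b, c} ⊔ kernelAt B μ σ

/-- `E` is a proper form of `𝔪`: a Lie algebra over `ℚ` which is contained in `𝔪` and different from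
`𝔪`, such that `F E = 𝔪`. -/
structure IsProperForm (B : Fin n → Tensors A r) (μ : F →+* Module.End ℚ (derivedMatrices B))
    (E : Submodule ℚ (Matrix (Fin n) (Fin n) ℚ)) : Prop where
  le : E ≤ derivedMatrices B
  ne : E ≠ derivedMatrices B
  bracket : ∀ x ∈ E, ∀ y ∈ E, x * y - y * x ∈ E
  span : Submodule.span ℚ {z : derivedMatrices B | ∃ f : F, ∃ e : derivedMatrices B,
    (e : Matrix (Fin n) (Fin n) ℚ) ∈ E ∧ z = μ f e} = ⊤

/-- `E` is detected by `A`: the associative algebra of endomorphisms of `H_1(A, ℚ)` which is generated by
the centre of `𝔤` and by the elements of `[𝔤, 𝔤]` which act on `M` by elements of `E` does not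
contain `𝔤`. -/
def Detected (B : Fin n → Tensors A r) (E : Submodule ℚ (Matrix (Fin n) (Fin n) ℚ)) : Prop :=
  ∃ X, InLie A X ∧ X ∉ Algebra.adjoin ℚ ({X | InCentre A X} ∪
    {X | X ∈ derivedLie A ∧ ∃ M ∈ E, IsLieMatrix B X M})

/-! ### The centre -/

/-- The centre of the Lie algebra acts trivially: an element of `𝔤` which acts on `M` like a central
element acts trivially. -/
def CentreActsTrivially (B : Fin n → Tensors A r) : Prop :=
  ∀ X, InLie A X → (∀ Y, InLie A Y → IsLieMatrix B (X * Y - Y * X) 0) → IsLieMatrix B X 0

variable (A) in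
/-- The endomorphisms which commute with `X` and with the derived algebra of `𝔤` commute with the
centre of `𝔤`. -/
def Generates (X : Module.End ℚ A.H1) : Prop :=
  ∀ T : Module.End ℚ A.H1,
    (∀ Y, InLie A Y → ∀ Z, InLie A Z → T * (Y * Z - Z * Y) = (Y * Z - Z * Y) * T) →
    T * X = X * T → ∀ Z, InCentre A Z → T * Z = Z * T

variable (A) in
/-- All relations `∑ i, x i = 0` between eigenvalues of `X` imply the relation `∑ i, y i = 0` between
the eigenvalues of `Y` for the same eigenvectors. -/
def RelationsOf (X Y : Module.End ℚ A.H1) : Prop :=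
  ∀ (r : ℕ) (v : Fin r → Fin (2 * g) → ℂ) (x y : Fin r → ℂ),
    (∀ i, v i ≠ 0 ∧ Matrix.mulVec (toC A X) (v i) = x i • v i ∧
      Matrix.mulVec (toC A Y) (v i) = y i • v i) → ∑ i, x i = 0 → ∑ i, y i = 0

variable (A) in
/-- The centre of `𝔤` is rigid: the relations between the eigenvalues of a generating element of the
centre hold for all elements of the centre. (For example if the centre has dimension one.) -/
def RigidCentre : Prop :=
  ∀ X, InCentre A X → Generates A X → ∀ Y, InCentre A Y → RelationsOf A X Y

/-! ### Algebraic groups, torsors and the Mumford-Tate group -/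

/-- A subgroup of `GL_R(ℂ)` defined by polynomials with rational coefficients. -/
def IsAlgebraicSubgroup {R : Type} [Fintype R] [DecidableEq R] (G : Subgroup (GL R ℂ)) : Prop :=
  ∃ I : Set (MvPolynomial (R × R) ℚ), ∀ x : GL R ℂ, x ∈ G ↔
    ∀ p ∈ I, MvPolynomial.aeval (fun b : R × R => (x : Matrix R R ℂ) b.1 b.2) p = 0

/-- The torsor `G · T⁻¹` of `G`: the matrices `F` such that `F T` is an element of `G`. It is
defined over `ℚ̄` if `T` is a matrix with algebraic entries. -/
def torsor (G : Subgroup (GL (Fin n) ℂ)) (T : Matrix (Fin n) (Fin n) ℂ) :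
    Set (Matrix (Fin n) (Fin n) ℂ) :=
  {F | ∃ x ∈ G, (x : Matrix (Fin n) (Fin n) ℂ) = F * T}

variable (A) in
/-- The Hodge structure of `H^1(A)`: the complex number `z` acts on `H_1(A, ℝ) = ℂ ^ g` by
multiplication, and on `H^1(A, ℝ)` by the transposed map, here in the basis of `H^1(A, ℚ)` which is
dual to the basis of the lattice. -/
def hodge (z : ℂ) : Matrix (Fin (2 * g)) (Fin (2 * g)) ℂ :=
  Matrix.of fun i j => ((A.lam.repr (z • A.lam i) j : ℝ) : ℂ)

/-- `R` is the matrix of the action of the complex number `z` on `M`, in the Hodge structure given by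
those of `H^1(A)` and of the Tate motives (`z` acts on `ℚ(1)` by `(z z̄)⁻¹`). -/
def IsHodgeMatrix (B : Fin n → Tensors A r) (z : ℂ) (R : Matrix (Fin n) (Fin n) ℂ) : Prop :=
  ∀ a i (j : Fin (r i) → Fin (2 * g)),
    ∑ j' : Fin (r i) → Fin (2 * g), (∏ k, hodge A z (j k) (j' k)) *
        (B a i (fun k => Pi.single (j' k) 1) : ℂ) =
      (z * (starRingEnd ℂ) z) ^ (w i) * ∑ b, R b a * (B b i (fun k => Pi.single (j k) 1) : ℂ)

/-- The Mumford-Tate group of `M`: the smallest algebraic group over `ℚ` which contains the image of
the Deligne torus. -/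
def mumfordTate (B : Fin n → Tensors A r) : Subgroup (GL (Fin n) ℂ) :=
  sInf {G | IsAlgebraicSubgroup G ∧ ∀ z : ℂ, z ≠ 0 → ∃ x ∈ G,
    IsHodgeMatrix w B z (x : Matrix (Fin n) (Fin n) ℂ)}

variable (A) in
theorem RigidCentre.toRigid (hz : RigidCentre A) : N208.CT.Rigid A := by
  intro X hX hg Y hY
  refine dom_of_matrix (hz X ⟨hX.1, hX.2⟩ (fun T hT hTX Z hZ => ?_) Y ⟨hY.1, hY.2⟩)
  exact hg T hT hTX Z ⟨hZ.1, hZ.2⟩

theorem rigid_of_kind {d : ℕ} {S : Submodule ℂ (Matrix (Fin d) (Fin d) ℂ)}
    (h : IsSpin S ∨ IsMiddleExterior S) : H19PD.RigidLie S := by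
  rcases h with ⟨N, k, E, c, h1, h2, h3, rfl⟩ | ⟨N, k, m, a, b, P, Q, ⟨h1, h2, h3⟩, h4, h5, rfl⟩
  · exact H19PD.rigid_spin h1 h2 h3
  · exact H19PD.rigid_ext h1 h2 h3 h4 h5

/-- **Theorem.** Let `M` be a motive in the tensor category generated by `h^1(A)` and the Tate motives,
with the matrix `P` of periods. Let `F` be a finite commutative `ℚ`-algebra which acts on the Lie algebra
`𝔪` of the matrices of the elements of `[𝔤, 𝔤]`, such that the bracket is linear over `F`. Assume that the
homomorphisms `σ : F → ℂ` at which `A` has a part, or `𝔪 ⊗_{F, σ} ℂ` has dimension at most three,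
separate the elements of `F`, and that all proper forms of `𝔪` are detected by `A` (this is so for
suitable `A` if the Mumford-Tate domain of `M` is a product of balls of odd dimension and of domains
of type IV and dimension different from three, see above). Let `G` be an algebraic group over `ℚ` with a
torsor over `ℚ̄` which contains `P`.

1. If `Z` is in `𝔪` then `exp (t Z)` is in `G` for all complex numbers `t`.
2. If the centre of `𝔤` acts trivially on `M` or is rigid, then the Mumford-Tate group of `M` is
   contained in `G`. -/
theorem result {g s n : ℕ} (A : AbVar g) (r : Fin s → ℕ) (w : Fin s → ℤ)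
    (B : Fin n → Tensors A r) (P : Matrix (Fin n) (Fin n) ℂ) (hM : IsMotive w B P)
    (F : Type) [CommRing F] [Algebra ℚ F] [Module.Finite ℚ F]
    (μ : F →+* Module.End ℚ (derivedMatrices B)) (hμ : IsLieLinear B μ)
    (hF : ∀ f : F, f ≠ 0 → ∃ σ : F →+* ℂ, (HasPartAt B μ σ ∨ IsSmallAt B μ σ) ∧ σ f ≠ 0)
    (hE : ∀ E : Submodule ℚ (Matrix (Fin n) (Fin n) ℚ), IsProperForm B μ E → Detected B E)
    (G : Subgroup (GL (Fin n) ℂ)) (hG : IsAlgebraicSubgroup G) (T : Matrix (Fin n) (Fin n) ℂ)
    (hT : ∀ i j, IsAlgebraic ℚ (T i j)) (hP : P ∈ torsor G T) :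
    (∀ Z ∈ derivedMatrices B, ∀ t : ℂ, ∃ x ∈ G,
      (x : Matrix (Fin n) (Fin n) ℂ) = NormedSpace.exp (t • Z.map fun q => (q : ℂ))) ∧
    (CentreActsTrivially B ∨ RigidCentre A → mumfordTate w B ≤ G) := by
  obtain ⟨hM', Wt, hW⟩ : N208.AM.Mot w B P ∧ ∃ Wt, N208.AM.WRel w B Wt := by
    have hwt : ∃ M, N208.AM.WRel w B M := by
      obtain ⟨M, h⟩ := hM.weight
      refine ⟨M, fun a i => MultilinearMap.ext fun v => ?_⟩
      rw [_root_.smul_apply, _root_.sum_apply, smul_eq_mul, h a i v]
      rfl
    refine ⟨⟨hM.basis, fun X hX => ?_, hwt, hM.det, hM.deRham⟩, hwt⟩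
    obtain ⟨M, h⟩ := hM.lie X hX
    refine ⟨M, fun a i => MultilinearMap.ext fun v => ?_⟩
    rw [N208.AM.dact_apply, _root_.sum_apply, h a i v]
    rfl
  have hrelL : ∀ X M, N208.AM.Rel B X M ↔ IsLieMatrix B X M := by
    intro X M
    constructor
    · intro h a i v
      have h1 := congrArg (fun φ : MultilinearMap ℚ (fun _ : Fin (r i) => A.H1) ℚ => φ v) (h a i)
      simp only [N208.AM.dact_apply, _root_.sum_apply, _root_.smul_apply, smul_eq_mul] at h1
      exact h1
    · intro h a i
      refine MultilinearMap.ext fun v => ?_
      rw [N208.AM.dact_apply, _root_.sum_apply, h a i v]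
      rfl
  have hb : ∀ j : Fin (2 * g), A.bas j = Pi.single j 1 := fun j => by
    unfold AbVar.bas
    rw [Pi.basisFun_apply]
  have hrel : ∀ z R, N208.AM.HRel w B z R → IsHodgeMatrix w B z R := by
    intro z R h a i j
    have h1 := h a i j
    simp only [hb] at h1
    exact h1
  have hNC : CentreActsTrivially B → N208.AM.NoCentre B := fun hc X hX h =>
    (hrelL X 0).2 (hc X hX fun Y hY => (hrelL _ 0).1 (h Y hY))
  -- the derived algebra
  have hder : derivedLie A = der A.NA := by
    refine le_antisymm (Submodule.span_mono ?_) (Submodule.span_mono ?_)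
    · rintro _ ⟨X, hX, Y, hY, rfl⟩
      exact ⟨X, hX, Y, hY, rfl⟩
    · rintro _ ⟨X, hX, Y, hY, rfl⟩
      exact ⟨X, hX, Y, hY, rfl⟩
  have hV : derivedMatrices B = H19HP.mats B (der A.NA) := by
    ext M
    constructor
    · rintro ⟨X, hX, h⟩
      rw [hder] at hX
      exact ⟨X, hX, (hrelL X M).2 h⟩
    · rintro ⟨X, hX, h⟩
      rw [← hder] at hX
      exact ⟨X, hX, (hrelL X M).1 h⟩
  -- the group
  have hdet : T.det ≠ 0 := by
    obtain ⟨x, -, hxT⟩ := hP
    intro h0
    have h1 : (x : Matrix (Fin n) (Fin n) ℂ).det = 0 := by
      rw [hxT, Matrix.det_mul, h0, mul_zero]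
    exact (Matrix.GeneralLinearGroup.det x).ne_zero h1
  obtain ⟨T', h1, h2⟩ := Pool.Agent.R917.alg_inv hT hdet
  obtain ⟨x, hx, hxT⟩ := hP
  have hH : N208.AM.PtM P _ := ⟨Pool.Agent.R917.algGrp_of hG, T, T', h1, h2, x, hx, hxT⟩
  have hfull := H19PD.full_all hV hM' hW hH μ hμ {σ | HasPartAt B μ σ ∨ IsSmallAt B μ σ}
    (fun f hf => by
      obtain ⟨σ, h3, h4⟩ := hF f hf
      exact ⟨σ, h3, h4⟩)
    (by
      rintro σ (⟨d, S, PW, QW, hS, hloc⟩ | hs)
      · left
        refine ⟨d, S, PW, QW, rigid_of_kind hS.kind, hS.proj, hS.stable, hS.acts, fun Z hZ => ?_,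
          fun p hp h0 => ?_⟩
        · obtain ⟨Y, hY, h⟩ := hS.onto Z hZ
          exact ⟨Y, hY, h⟩
        · refine hloc p ((Submodule.span_mono ?_) hp) h0
          rintro _ ⟨X, hX, M, hM, rfl⟩
          rw [← hder] at hX
          exact ⟨X, hX, M, (hrelL X M).1 hM, rfl⟩
      · exact Or.inr hs)
    (fun E h3 h4 h5 h6 => by
      obtain ⟨X, hX, h7⟩ := hE E ⟨h3, h4, h5, eq_top_iff.2 fun x _ => h6 x⟩
      refine ⟨X, hX, fun h8 => h7 (Algebra.adjoin_mono ?_ h8)⟩
      rintro X (⟨h9, h10⟩ | ⟨h9, M, hM, h10⟩)
      · exact Or.inl ⟨h9, fun Y hY => h10 Y hY⟩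
      · rw [← hder] at h9
        exact Or.inr ⟨h9, M, hM, (hrelL X M).1 h10⟩)
  refine ⟨fun Z hZ t => ?_, fun hc => ?_⟩
  · rw [hV] at hZ
    have h3 := H19HP.mats_LQ hM' hW (hfull hZ)
    exact Pool.Agent.R917.exp_mem hH.grp fun d => (h3 d).smul t
  · obtain ⟨N, hN, -⟩ := N208.AM.exists_J hM'
    refine sInf_le ⟨hG, fun z hz => ?_⟩
    obtain ⟨⟨x, hx, hx'⟩, h4⟩ : NormedSpace.exp (N208.AM.KK Wt N z) ∈
        {M | ∃ x ∈ G, (x : Matrix (Fin n) (Fin n) ℂ) = M} ∧
        N208.AM.HRel w B z (NormedSpace.exp (N208.AM.KK Wt N z)) := by
      rcases hc with hc | hc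
      · exact H19HP.main_Q hM' hW hH (hNC hc) hN hfull hz
      · exact H19HP.main_rig hM' hW hH hc.toRigid hN hfull hz
    refine ⟨x, hx, ?_⟩
    rw [hx']
    exact hrel _ _ h4

end Pool.Agent.Results.MP_f11a48_ag.BallsAndTypeIVDomains
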