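import Pool.Agent.T44.GC.Hyp
import Pool.Agent.T44.GC.Wn
import Pool.Agent.T44.GF.Alg
import Pool.Agent.Y124.TD.Ap3
import Pool.Agent.H82.DK.D
import Pool.Agent.H33GF.Grow
import Pool.Agent.H91GF.Main

/-!
# The smallest subtorsor containing the period matrix is the torsor of motivated periods for EVERY fibre near a fibre with few
# periods (for example a fibre of CM type), and for all products of such fibres in windows

Let `f ∈ ℚ[X]` be monic of degree `n = 2 g`, `g ≥ 2`, with `n` distinct real roots which are not zero, and let `C(z)` be the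
curve `y² = f(x) (x - z)` of genus `g`. Suppose that the central fibre `C(0)` has few periods: up to a common scalar `λ` all its
periods are algebraic over the field generated by `2 g - 2` numbers, that is, the quotients of the `4 g²` periods generate a field
of transcendence degree at most `2 g - 2`. Let `d` be the dimension of the Mumford-Tate group of `C(0)`. By Deligne the
transcendence degree of the field of the quotients of the periods is at most `d - 1`, so this holds if `d ≤ 2 g - 1`:

* if the Jacobian of `C(0)` has complex multiplication (`d ≤ g + 1`), for all `g ≥ 2`;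
* if it is isogenous to `E^g` for any elliptic curve `E` (`d ≤ 4`), for all `g ≥ 3`;
* if it is isogenous to `E_1^a × E_2^b` (`d ≤ 7`), for all `g ≥ 4`, and so on.

(These facts are not used in Lean, where the condition `FewPeriods` is the condition on the periods.) Part 2 gives an example for
every `g`: `y² = D_(2g+1)(x)`, the Dickson (Chebyshev) polynomial; this curve is a quotient of `w² = v^(8g+4) + 1`
(`x = v² + v⁻²`).

**Theorem.** For all `k` and `D` and ALL `k`-tuples of rational numbers `t_1, …, t_k` with denominators `≤ N^c` in a window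
`[N, N + N^c]` or `[-N - N^c, -N]`, `N ≥ N₀`, at distance at least `G` of each other, the motive
`M = h^1(C(1/t_1)) ⊕ … ⊕ h^1(C(1/t_k))` satisfies `Ω_M = polTorsor`, over all number fields `K` of degree at most `D`; hence
`Ω_M = Ω^dRB_M = Ω^And_M = Ω^mot_M`. For `k = 1` (with another `c`): all `C(z)`, where `z ≠ 0` is a rational number with
`|z| ≤ H(z)^(c - 1)` (`H` the height), with finitely many exceptions; for example all `C(1/t)` with integers `|t| ≥ N₀`.

There are no exceptional fibres and no exceptional tuples. `IsOmega`, `polTorsor` etc. are the definitions of the file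
HyperellipticSmallestSubtorsor, which has this result for almost all tuples, for all `f`.

Proof. (`Pool/Agent/T44/EF`, `GF`, `EX`, `GA`, `GC`, and the libraries Y118, Y120, Y124.) The matrices `Z_l`, where `C(0) · Z_l` is the period
matrix of the `l`-th curve, are in general position: a polynomial of bounded degree with coefficients in a number field of
bounded degree which vanishes at `(Z_l)` vanishes on `Sp^k`. Let `T` be a subtorsor which contains the period matrix `c`. The
space `S` of the homogeneous polynomials of degree `d` which vanish on `T` is defined over `K`, and the space `c S` is defined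
over `K`, too, so the quotients of the Plücker coordinates of the space `Z S` are numbers in the field generated by
the quotients of the periods of `C(0)`. The spaces spanned by the products of `e` periods have dimension at most `C (e + 1)^s`
(`GROW`, by helper33), `s = 2 g - 2`, so any `s + 1` of these quotients satisfy a polynomial relation over `K` whose degree is
bounded in terms of `C`, `s` and `d` only. As the `Z_l` are in general position this relation holds on `Sp^k`, and its derivatives
show that the subalgebra of `sp_(2g)` of the directions in the `l`-th factor which stabilise `S` has codimension at most `s`. But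
proper subalgebras of `sp_(2g)` have codimension at least `2 g - 1` (`CODIM2`, by helper91). So the space of relations is stable
under `Sp^k`, and the criterion `CritT` (a variant of a theorem of the library Y123) shows that `T` contains `polTorsor`.
Part 2 (`DK`, by helper82): the substitution `x = u + 1/u` and Beta integrals.
-/

set_option autoImplicit false

open Polynomial Matrix

namespace Pool.Agent.Results.MP_f11a48_ag.EveryFibreNearFewPeriods

/-- `T` is (the set of complex points of) a `K`-subtorsor of `GL_B = Iso (M_dR, M_B)`: it is closed under `x y⁻¹ z`, and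
it is defined in `GL_B` by polynomials with coefficients in `K`. -/
def IsSubtorsor (K : Subfield ℂ) {B : Type} [Fintype B] [DecidableEq B] (T : Set (Matrix B B ℂ)) : Prop :=
  (∀ x ∈ T, ∀ y ∈ T, ∀ z ∈ T, x * y⁻¹ * z ∈ T) ∧ ∃ I : Set (MvPolynomial (B × B) K), ∀ x : Matrix B B ℂ, x ∈ T ↔
    IsUnit x ∧ ∀ p ∈ I, MvPolynomial.eval (fun b => x b.1 b.2) (MvPolynomial.map (algebraMap K ℂ) p) = 0

/-- `Ω` is the smallest `K`-subtorsor which contains the period matrix `c` -/
def IsOmega (K : Subfield ℂ) {B : Type} [Fintype B] [DecidableEq B] (c : Matrix B B ℂ) (Ω : Set (Matrix B B ℂ)) : Prop :=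
  IsSubtorsor K Ω ∧ c ∈ Ω ∧ ∀ T : Set (Matrix B B ℂ), IsSubtorsor K T → c ∈ T → Ω ⊆ T

/-- the alternating form with entries `2 (-1)^r` at `(r, s)`, `|r - s| = 1` -/
def polB (n : ℕ) : Matrix (Fin n) (Fin n) ℚ :=
  Matrix.of fun r s => if (r : ℕ) = s + 1 ∨ (s : ℕ) = r + 1 then 2 * (-1) ^ (r : ℕ) else 0

/-- `(X_1, …, X_N)` respects the polarisations, with multiplier `μ` -/
def Respects {n N : ℕ} (Q : Fin N → Matrix (Fin n) (Fin n) ℂ) (X : Fin N → Matrix (Fin n) (Fin n) ℂ) (μ : ℂ) : Prop :=
  ∀ j, X j * Q j * (X j)ᵀ = μ • (polB n).map (algebraMap ℚ ℂ)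

/-- the torsor of the block diagonal matrices which respect the polarisations, with the same multiplier -/
def polTorsor {n N : ℕ} (Q : Fin N → Matrix (Fin n) (Fin n) ℂ) : Set (Matrix (Fin n × Fin N) (Fin n × Fin N) ℂ) :=
  {x | ∃ (X : Fin N → Matrix (Fin n) (Fin n) ℂ) (μ : ℂ), μ ≠ 0 ∧ x = Matrix.blockDiagonal X ∧ Respects Q X μ}

/-- the branch points: `t` inserted at place `m` in the sequence of the `a i` -/
noncomputable def branch {n : ℕ} (a : Fin n → ℝ) (m : Fin (n + 1)) (t : ℝ) : Fin (n + 1) → ℝ :=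
  Fin.insertNth (α := fun _ => ℝ) m t a

/-- the period `∮ x^j dx / y`, `y² = ∏ (x - e i)`, over the loop around the segment `[e l, e (l + 1)]`, that is twice
the integral over the segment (principal branch of the square root) -/
noncomputable def period {n : ℕ} (e : Fin (n + 1) → ℝ) (l j : Fin n) : ℂ :=
  2 * ∫ x in (e l.castSucc)..(e l.succ), (x : ℂ) ^ (j : ℕ) / (((∏ i, (x - e i) : ℝ) : ℂ) ^ (1 / 2 : ℂ))

/-- the polarisation in terms of the forms `x^j dx / y`, `y² = F(x) = ∑ c_k x^k`: entries `(i - j)/2 * c_(i+j+2)` -/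
noncomputable def polDR (n : ℕ) (F : ℚ[X]) : Matrix (Fin n) (Fin n) ℚ :=
  Matrix.of fun i j => (((i : ℕ) : ℚ) - ((j : ℕ) : ℚ)) / 2 * F.coeff ((i : ℕ) + (j : ℕ) + 2)

/-- the period matrix `P` has few periods: up to a common scalar `λ` all its entries are algebraic over a field generated by
`n - 2` complex numbers (that is, the quotients of the entries generate a field of transcendence degree at most `n - 2`) -/
def FewPeriods {n : ℕ} (P : Matrix (Fin n) (Fin n) ℂ) : Prop :=
  ∃ (θ : Fin (n - 2) → ℂ) (lam : ℂ), lam ≠ 0 ∧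
    ∀ i j, IsAlgebraic (IntermediateField.adjoin ℚ (Set.range θ)) (P i j / lam)

/-- The rational numbers `x_1, …, x_k` have denominators at most `N^c`, all of them are in `[N, N + N^c]` or all of them are in
`[-N - N^c, -N]`, and they are at distance at least `G` of each other. -/
def InWindow {k : ℕ} (G N : ℕ) (c : ℝ) (x : Fin k → ℚ) : Prop :=
  (∀ l, ((x l).den : ℝ) ≤ (N : ℝ) ^ c) ∧
    ((∀ l, (N : ℝ) ≤ x l ∧ (x l : ℝ) ≤ N + (N : ℝ) ^ c) ∨ ∀ l, (N : ℝ) ≤ -x l ∧ (-x l : ℝ) ≤ N + (N : ℝ) ^ c) ∧
    ∀ i j, i ≠ j → (G : ℚ) ≤ |x i - x j|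

/-- periods of torus type -/
theorem few_of_torus {n : ℕ} (hn4 : 4 ≤ n) {P : Matrix (Fin n) (Fin n) ℂ}
    (h : ∃ (U V : Matrix (Fin n) (Fin n) ℂ) (θ : Fin (n / 2) → ℂ) (e : Fin n → Fin (n / 2) → ℤ) (lam : ℂ),
      (∀ i j, IsAlgebraic ℚ (U i j)) ∧ (∀ i j, IsAlgebraic ℚ (V i j)) ∧ IsUnit U.det ∧ IsUnit V.det ∧
      lam ≠ 0 ∧ (∀ j, θ j ≠ 0) ∧ P = lam • (U * Matrix.diagonal (fun k => ∏ j, θ j ^ e k j) * V)) : FewPeriods P := by
  obtain ⟨U, V, θ, e, lam, hU, hV, -, -, hlam, -, rfl⟩ := h
  refine ⟨fun j => if h : (j : ℕ) < n / 2 then θ ⟨j, h⟩ else 1, lam, hlam, fun i j => ?_⟩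
  set F := IntermediateField.adjoin ℚ (Set.range fun j : Fin (n - 2) => if h : (j : ℕ) < n / 2 then θ ⟨j, h⟩ else 1) with hF
  have hθ : ∀ j, θ j ∈ Pool.Agent.T44.GF.acl F := by
    intro j
    have hj := j.2
    have h1 : θ j ∈ F := IntermediateField.subset_adjoin ℚ _ ⟨⟨j, by omega⟩, by
      show (if h : (j : ℕ) < n / 2 then θ ⟨j, h⟩ else 1) = θ j
      rw [dif_pos hj]⟩
    exact Pool.Agent.T44.GF.mem_acl.2 (isAlgebraic_algebraMap (⟨θ j, h1⟩ : F))
  have hal : ∀ z : ℂ, IsAlgebraic ℚ z → z ∈ Pool.Agent.T44.GF.acl F := fun z hz =>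
    Pool.Agent.T44.GF.mem_acl.2 (hz.tower_top F)
  rw [← Pool.Agent.T44.GF.mem_acl, Matrix.smul_apply, smul_eq_mul, mul_div_cancel_left₀ _ hlam, Matrix.mul_apply]
  refine (Pool.Agent.T44.GF.acl F).sum_mem fun k _ => ?_
  rw [Matrix.mul_diagonal]
  refine (Pool.Agent.T44.GF.acl F).mul_mem ((Pool.Agent.T44.GF.acl F).mul_mem (hal _ (hU _ _)) ?_) (hal _ (hV _ _))
  exact (Pool.Agent.T44.GF.acl F).prod_mem fun j _ => (Pool.Agent.T44.GF.acl F).zpow_mem (hθ j) _

theorem result (n : ℕ) (hn : Even n) (hn4 : 4 ≤ n) :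
    -- 1: all tuples of fibres near a central fibre with few periods
    (∀ (a : Fin n → ℝ) (f : ℚ[X]) (m : Fin (n + 1)), f.map (algebraMap ℚ ℝ) = ∏ i, (X - C (a i)) →
      StrictMono (branch a m 0) → FewPeriods (Matrix.of (period (branch a m 0))) →
      ∃ G : ℕ, ∀ k D : ℕ, 0 < k → ∃ (c : ℝ) (N₀ : ℕ), 0 < c ∧ ∀ N : ℕ, N₀ ≤ N →
        ∀ t : Fin k → ℚ, InWindow G N c t →
          (∀ l, StrictMono (branch a m (1 / (t l : ℝ)))) ∧
          ∀ K : Subfield ℂ, FiniteDimensional ℚ K → Module.finrank ℚ K ≤ D →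
            IsOmega K (Matrix.blockDiagonal fun l => Matrix.of (period (branch a m (1 / (t l : ℝ)))))
              (polTorsor fun l => (polDR n (f * (X - C (1 / (t l : ℚ))))).map (algebraMap ℚ ℂ))) ∧
    -- 2: an example for every `n`: the curve `y² = D_(n+1)(x)`
    (∃ (a : Fin n → ℝ) (f : ℚ[X]) (m : Fin (n + 1)), X * f = dickson 1 1 (n + 1) ∧
      f.map (algebraMap ℚ ℝ) = ∏ i, (X - C (a i)) ∧ StrictMono (branch a m 0) ∧
      FewPeriods (Matrix.of (period (branch a m 0)))) := by
  refine ⟨fun a f m hf h0 hT => ?_, ?_⟩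
  · obtain ⟨R, hmain⟩ := Pool.Agent.T44.GC.main_hypXA Pool.Agent.H91GF.main Pool.Agent.H33GF.GROW.main hn hn4 a f hf m h0
      le_rfl hT
    refine ⟨R, fun k D hk => ?_⟩
    obtain ⟨E, hE⟩ := hmain k D hk
    obtain ⟨c, N₀, hc, hw⟩ := Pool.Agent.T44.GC.window_conv k E R
    refine ⟨c, N₀, hc, fun N hN t ht => ?_⟩
    obtain ⟨hden, hwin, hsep⟩ := ht
    -- the common statement for both signs
    have key : ∀ σ : ℚ, (σ = 1 ∨ σ = -1) → (∀ l, (N : ℝ) ≤ ((σ * t l : ℚ) : ℝ) ∧ ((σ * t l : ℚ) : ℝ) ≤ N + (N : ℝ) ^ c) →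
        (∀ l, StrictMono (branch a m (1 / (t l : ℝ)))) ∧
          ∀ K : Subfield ℂ, FiniteDimensional ℚ K → Module.finrank ℚ K ≤ D →
            IsOmega K (Matrix.blockDiagonal fun l => Matrix.of (period (branch a m (1 / (t l : ℝ)))))
              (polTorsor fun l => (polDR n (f * (X - C (1 / (t l : ℚ))))).map (algebraMap ℚ ℂ)) := by
      intro σ hσ hσt
      have hσ1 : σ * σ = 1 := by rcases hσ with rfl | rfl <;> norm_num
      have hσden : ∀ l, (σ * t l).den = (t l).den := by
        intro l
        rcases hσ with rfl | rfl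
        · rw [one_mul]
        · rw [neg_one_mul, Rat.neg_den]
      have hσabs : ∀ i j, |σ * t i - σ * t j| = |t i - t j| := by
        intro i j
        rw [← mul_sub, abs_mul]
        rcases hσ with rfl | rfl
        · rw [abs_one, one_mul]
        · rw [abs_neg, abs_one, one_mul]
      obtain ⟨H, T, b, g, hb, hbT, hg, hgH, hx⟩ := hw N hN (fun l => σ * t l) (fun l => by rw [hσden]; exact hden l) hσt
        fun i j hij => by rw [hσabs]; exact hsep i j hij
      obtain ⟨-, h1⟩ := hE H T b hb hbT
      have hz : ∀ l, 1 / t l = σ / (((T - g l : ℕ) : ℚ) / b) := by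
        intro l
        rw [← hx l]
        have hσ0 : σ ≠ 0 := fun h0 => by rw [h0, mul_zero] at hσ1; exact zero_ne_one hσ1
        rw [div_mul_cancel_left₀ hσ0, one_div]
      obtain ⟨h2, h3⟩ := h1 g hg hgH σ hσ (fun l => 1 / t l) hz
      have hc : ∀ l, (((1 / t l : ℚ)) : ℝ) = 1 / (t l : ℝ) := fun l => by push_cast; rfl
      simp only [hc] at h2 h3
      exact ⟨h2, h3⟩
    rcases hwin with hwin | hwin
    · exact key 1 (Or.inl rfl) fun l => by rw [one_mul]; exact hwin l
    · exact key (-1) (Or.inr rfl) fun l => by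
        rw [neg_one_mul]
        push_cast
        exact hwin l
  · obtain ⟨f, a, m, h1, h2, h3, h4⟩ := Pool.Agent.H82.DK.main n hn hn4
    exact ⟨a, f, m, h1, h3, h2, few_of_torus hn4 h4⟩

end Pool.Agent.Results.MP_f11a48_ag.EveryFibreNearFewPeriods
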