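import Pool.Agent.T44.GB.Fn

/-!
# The torsor form of the period conjecture for EVERY fibre near a smooth or a degenerate fibre with few periods

Let `X` be a family of varieties over an open part of the line over `ℚ`, and let the fibre over `z = 0` be smooth, or let the
local monodromy at `z = 0` be unipotent. The period matrix of (a part of) the cohomology of the fibres (rows: Betti side,
columns: de Rham side) is `P(z) = Ω exp(N log z) Z(z)`, where `N` is the nilpotent residue of the Gauss-Manin connection (`N = 0`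
if the fibre over `0` is smooth), `Z(0) = 1`, the entries of `Z` and `Z⁻¹` are G-functions over `ℚ`, and `Ω` is the period
matrix of the central fibre, respectively of the limit mixed motive. We consider every differential system
`T (z Z' + N Z) = Z A` over `ℚ[z]` of this kind and every invertible complex matrix `Ω`, and write `M_m` for the de Rham-Betti
object with the period matrix `P(1/m)`, for rational numbers `m`. Let `M_0` be any de Rham-Betti object, with period matrix `C₀`. We assume that the
central fibre and `M_0` have few periods: up to one common scalar and up to the choice of the parameter, which replaces `Ω` by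
`Ω exp (v N)`, all entries of `Ω` and `C₀` are algebraic over a field generated by `s` complex numbers (`Few`). Let
`s' = s` if `N = 0` and `s' = s + 1` if `N ≠ 0` (the additional number is `log m`). For `z < 0` we take
`log z = log |z| + π i`.

Let `Gal` be the group of the matrices `g` such that every polynomial relation between `z`, `log z` and the entries of `P(z)`
also holds for `g P(z)` (`Big`); it contains the Zariski closure of the commutator subgroup of the monodromy group.

**Theorem, general part.** There are `x₀`, `G`, and for all `k`, `D` there are `c > 0` and `N₀`, such that the following holds for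
ALL `M ≥ N₀`, ALL `k`-tuples of rational numbers `m_1, …, m_k` in `[M, M + M^c]`, or in `[-M - M^c, -M]`, with denominators
`≤ M^c` and at distance at least `G` of each other (for `k = 1`, and with another `c`: for ALL rational fibres `z = ±a/b ≠ 0` with
`a ≤ b^c` and `b ≥ N₀`, that is, for all rational numbers `z ≠ 0` which are close to `0` in terms of their height,
`|z| ≤ H(z)^(c - 1)`, with finitely many exceptions), ALL number fields `K` of degree at most `D` and all `K`-subtorsors `T` of the torsor of all isomorphisms of the de Rham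
and the Betti realisation of `M_0 ⊕ M_(m_1) ⊕ … ⊕ M_(m_k)` which contain the period matrix. Let `Gal` contain the group of the
matrices of determinant `1` which respect a form `B` which is alternating (`s' ≤ n - 2`, `n ≥ 4`), or symmetric (`s' ≤ n - 3`,
`n ≥ 5`, `n ≠ 6`), or zero (`s' ≤ n - 2`, `n ≥ 3`).

1. (Relative case) `T` is, in the torsor of the isomorphisms `x ⊕ ⨁ X_l` which respect polarisations, `X_l Q_l X_l^T = μ_l B`, the
   full inverse image of its image under `(x, det X_1, …, det X_k)` (in the symplectic case the determinants are superfluous).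
2. (Absolute case) Let `M_0 = ℚ(-1)^r`, `r > 0`. If `T` respects the polarisations, with values in `ℚ(-w_l)`, and the
   determinants, then `T` is the full torsor of all isomorphisms which respect them.

**Theorem, hypergeometric families near `z = 0`.** Let `β_1, …, β_m` be rational numbers which are not integers, `n = 2m`. The operator
`θ^n - z ∏_j (θ - β_j) (θ + β_j)` has maximally unipotent monodromy at `z = 0`. It is contiguous to the Picard-Fuchs operator of
families of Calabi-Yau varieties of dimension `n - 1`, for `β = (1/7, 2/7, 3/7)` of the mirrors of the septic fivefolds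
`∑ x_i^7 = 7 ψ ∏ x_i`, `z = ψ^(-7)`. The period matrix of the fibre `M_t` at `z = 1/t` is `(Y(t) Ω)ᵀ`, where `Y(t)` is the
matrix of the `(θ^a f_b)(1/t)`, `f_b` the Frobenius basis, and `Ω` is the period matrix of the limit; it is of the form above,
with the residue `N` with the entries `1` below the diagonal, and with `Ωᵀ` in place of `Ω`. The limit is a mixed Tate motive. If the family is defined over
`ℚ`, the entries of `Ω`, up to a scalar and the choice of the parameter, are in the field generated by the `s = m` numbers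
`2πi, ζ(3), …, ζ(2m - 1)`. We assume only `Few`, with any `s ≤ 2m - 3`. (So for motives over `ℚ` the rank is at least
`6`.) Let `Ωᵀ J Ω = (2πi)^w B` with a matrix `B` over `K`, where `J` is the polarisation on the de Rham side.

Then for ALL tuples of rational numbers `t_1, …, t_k` as above, and in particular (`k = 1`) for all but finitely many of the
rational numbers `z = 1/t ≠ 0` with `|z| ≤ H(z)^(c - 1)`, the smallest `K`-subtorsor `Ω_M` which contains the period matrix of `M = ℚ(-1) ⊕ M_(t_1) ⊕ … ⊕ M_(t_k)` is the full torsor of the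
isomorphisms which respect the decomposition and the polarisations (with values in `ℚ(-w)`): the group is
`G_m ⋉ Sp_n × … × Sp_n`. As the torsors `Ω^dRB_M`, `Ω^And_M`, `Ω^mot_M` lie between `Ω_M` and this torsor, all of them are equal.

**Theorem, hypergeometric families near `z = ∞`.** Let `β_j = a_j / d`, `j = 1, …, m`, be distinct with `0 < 2 a_j < d`, `m ≥ 2`.
Then the local monodromy of the same operator at `z = ∞` has finite order, and the local exponents are the `2m` distinct numbers
`± β_j`. We consider the fibres `M_t` at `z = t^d`, `t` rational. For `d = 2m + 1` odd and `a_j = j` these are the fibres `ψ = 1/t` of the Dwork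
family `∑ x_i^d = d ψ ∏ x_i` near the Fermat hypersurface `ψ = 0` (more exactly, of the family of the mirrors, or of the part of
the cohomology which is invariant under the diagonal automorphisms of determinant one); for `d = 5` these are the mirrors of the
quintic threefolds, of rank `4`. Let `f_j`, `j = 1, …, 2m`, be the solutions `z^(-γ_j) (1 + …)`, `γ_j = ± β_j`, let `Y∞(t)` be the
matrix of the `(θ^i f_j)(t^d)`, and let `(Y∞(t) Ω)ᵀ` be the period matrix of `M_t`. The rows of `Ω` are eigenvectors of the local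
monodromy, which is rational and has distinct eigenvalues. So `Ω` is the product of a diagonal matrix `diag(ω_j)` (Beta values in
the examples) and an algebraic matrix `V`, in all families of motives. There is no other assumption on `Ω`, except that
it respects polarisations, `(G Ω)ᵀ J (G Ω) = (2πi)^w B`, `w > 0`, where `G` is the matrix of the leading coefficients of `Y∞`.

Then for ALL tuples of rational numbers `t_1, …, t_k` as above, and in particular (`k = 1`) for all but finitely many of the
rational numbers `ψ = 1/t ≠ 0` with `|ψ| ≤ H(ψ)^(c - 1)`, the smallest `K`-subtorsor `Ω_M` which contains the period matrix of `M = M_(t_1) ⊕ … ⊕ M_(t_k)` is the full torsor of the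
isomorphisms which respect the decomposition and the polarisations with values in one and the same object of rank one: the group
consists of the tuples in `GSp_n × … × GSp_n` with the same multiplier.

There are no exceptional fibres and no exceptional tuples. In HypergeometricTorsors (MP_cbf1af_ag), MonodromyTorsors
(MP_470b79_ag) and BigMonodromyTorsors (MP_caab05_ag) similar results are shown for almost all tuples (and all `Ω`), in
EveryFibreNearFewPeriods a result for all tuples of hyperelliptic curves, near smooth fibres.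

Proof (`Pool/Agent/T44/GL`, `Pool/Agent/T44/GF`, `Pool/Agent/T44/GA`, `Pool/Agent/T44/GB`; the assembly is in `GB/Fn`). The fibres with `z < 0` are the
fibres of the family `z ↦ -z` with `z > 0`; the relations between the periods are continued analytically in the half plane of the
`log z` (`GB`). (`GL`: `Vl`, `Dt`, `Rl`, `Gn`, `Gm`, `Ga`; `NORM` by helper45.) Let `a` be a common denominator, and let the integer `t` be larger than all `a m_l`. The matrix `P(1/m_l)` is the
product of `Ω exp(-N log (t/a))` and `exp(-N log (1 - g_l/t)) Z(a/(t - g_l))`, `g_l = t - a m_l`. The entries of the second factor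
are values at `1/t` of G-functions with the parameters `a` and `g_l`; the constants in the G-conditions are polynomials in the
parameters (`GA`). By a zero estimate and the linear independence of such values, polynomials of bounded degree over number fields of bounded degree which vanish at the second factors
vanish on their orbits under the products of subgroups generated by unipotent elements of the Galois group, conjugated by
`Ω exp(-N log (t/a))`. (`Gw`, `Mn`.) Let `S` be the space of the homogeneous polynomials of degree `d` which vanish on `T`. Then the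
quotients of the Plücker coordinates of a certain translate of `S` lie in the field generated by the entries of `Ω`, `C₀` and
`log (t/a)`, and any `s' + 1` of them satisfy a relation over `K` of bounded degree, independent of `t`, because the spaces spanned by
the products of `e` of these numbers have dimension at most `C (e + 1)^s'` (`GROW`, by helper33). These relations hold on the
orbit, and their derivatives show that the subalgebra which stabilises `S` has codimension at most `s'`. So `S` is stable.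
(`ABS`, by helper82, after Y123/GN.) By a commutator argument `T` is stable as well. (`CODIM2`, `CLSP`, `CLSL`, `CLSO`, by
helper91, helper82 and helper84.) The proper subalgebras of `sp_n`, `sl_n`, `so_n` have codimension at least `n - 1`, `n - 1`,
`n - 2`. (`Hy`, `Hs`.) For the hypergeometric systems `Gal` contains the symplectic group by a theorem of helper119 (Y119/HY).
(`Pool/Agent/T44/GO`; `CONT` by helper79, `ROOT` by helper83, `SDC` by helper90, `PGR` by helper21, `FEW` by helper94.) The theorem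
for `z = ∞` follows from part 1 for the normalised solution in `x = 1/t`, with `N = 0`, `r = 0` and `s = m`: by the polarisation
the numbers `ω_j ω_(j')`, `γ_j' = -γ_j`, are algebraic multiples of `(2πi)^w`. The Galois group at `z = ∞` is obtained by analytic
continuation of the relations around `z = 1`, and all multipliers occur because `(2πi)^w` is transcendental.
-/

set_option autoImplicit false

open PowerSeries

namespace Pool.Agent.Results.MP_f11a48_ag.FibresNearFewPeriods

/-- The arithmetic conditions in the definition of a G-function, for a power series with rational coefficients: geometric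
growth of the coefficients and of their common denominators. -/
def Gfunction (g : ℚ⟦X⟧) : Prop := ∃ C : ℝ, (∀ m, |((coeff m g : ℚ) : ℝ)| ≤ C ^ (m + 1)) ∧
  ∀ m, ∃ d : ℕ, 0 < d ∧ (d : ℝ) ≤ C ^ (m + 1) ∧ ∀ j ≤ m, ∃ a : ℤ, (d : ℚ) * coeff j g = a

/-- The period matrix `Ω exp(N log z) Z(z)` at `z = 1/x`, where `log z = log |z| + π i` if `z < 0`. -/
noncomputable def P {n : ℕ} (Ω : Matrix (Fin n) (Fin n) ℂ) (N : Matrix (Fin n) (Fin n) ℤ)
    (Z : Matrix (Fin n) (Fin n) ℚ⟦X⟧) (x : ℝ) : Matrix (Fin n) (Fin n) ℂ :=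
  Ω * IsNilpotent.exp (Complex.log (1 / (x : ℂ)) • N.map (Int.castRingHom ℂ)) *
    Matrix.of fun a j => ((∑' m : ℕ, ((coeff m (Z a j) : ℚ) : ℝ) * (1 / x) ^ m : ℝ) : ℂ)

/-- Few periods. Up to one common scalar `λ`, all entries of `C₀` and of `Ω exp (v N)`, for some `v`, are algebraic over a
field generated by `s` complex numbers. (`Ω exp (v N)` is the period matrix of the limit for another choice of the parameter.) -/
def Few (s : ℕ) {r n : ℕ} (C₀ : Matrix (Fin r) (Fin r) ℂ) (Ω : Matrix (Fin n) (Fin n) ℂ)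
    (N : Matrix (Fin n) (Fin n) ℤ) : Prop :=
  ∃ (θ : Fin s → ℂ) (lam v : ℂ), lam ≠ 0 ∧
    (∀ i j, IsAlgebraic (IntermediateField.adjoin ℚ (Set.range θ)) (C₀ i j / lam)) ∧
    ∀ i j, IsAlgebraic (IntermediateField.adjoin ℚ (Set.range θ))
      ((Ω * IsNilpotent.exp (v • N.map (Int.castRingHom ℂ))) i j / lam)

/-- `T` is (the set of complex points of) a `K`-subtorsor of `GL_B = Iso (M_dR, M_B)`: it is closed under `x y⁻¹ z`, and
it is defined in `GL_B` by polynomials with coefficients in `K`. -/
def Subtorsor (K : Subfield ℂ) {B : Type} [Fintype B] [DecidableEq B] (T : Set (Matrix B B ℂ)) : Prop :=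
  (∀ x ∈ T, ∀ y ∈ T, ∀ z ∈ T, x * y⁻¹ * z ∈ T) ∧ ∃ I : Set (MvPolynomial (B × B) K), ∀ x : Matrix B B ℂ, x ∈ T ↔
    IsUnit x ∧ ∀ p ∈ I, MvPolynomial.eval (fun b => x b.1 b.2) (MvPolynomial.map (algebraMap K ℂ) p) = 0

/-- `S` is the smallest `K`-subtorsor which contains the period matrix `c`: this is `Ω_M` -/
def Omega (K : Subfield ℂ) {B : Type} [Fintype B] [DecidableEq B] (c : Matrix B B ℂ) (S : Set (Matrix B B ℂ)) : Prop :=
  Subtorsor K S ∧ c ∈ S ∧ ∀ T : Set (Matrix B B ℂ), Subtorsor K T → c ∈ T → S ⊆ T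

/-- The form `B` is zero (special linear group), or nondegenerate and alternating, or nondegenerate and symmetric, and `s` is
smaller than the codimension of all proper subalgebras of the Lie algebra of its group. -/
def Cls {n : ℕ} (s : ℕ) (B : Matrix (Fin n) (Fin n) ℂ) : Prop :=
  (B = 0 ∧ 3 ≤ n ∧ s + 2 ≤ n) ∨ ((IsUnit B ∧ B.transpose = -B) ∧ 4 ≤ n ∧ s + 2 ≤ n) ∨
    (IsUnit B ∧ B.transpose = B ∧ 5 ≤ n ∧ n ≠ 6 ∧ s + 3 ≤ n)

/-- The monodromy is big: for all matrices `g` of determinant `1` which respect `B`, every polynomial relation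
`F(1/x, log x, P(x)) = 0` which holds for the period matrices `P(x)` for all real `x > x₀` also holds for `g P(x)`.
(For small positive `z = 1/x`; the fibres with `z < 0` are not used here.) -/
def Big {n : ℕ} (Ω : Matrix (Fin n) (Fin n) ℂ) (N : Matrix (Fin n) (Fin n) ℤ)
    (Z : Matrix (Fin n) (Fin n) ℚ⟦X⟧) (x₀ : ℕ) (B : Matrix (Fin n) (Fin n) ℂ) : Prop :=
  ∀ g : Matrix (Fin n) (Fin n) ℂ, g.det = 1 → g * B * g.transpose = B →
    ∀ F : MvPolynomial (Option (Option (Fin n × Fin n))) ℂ,
      (∀ x : ℝ, x₀ < x → MvPolynomial.eval (fun o => o.elim ((1 / x : ℝ) : ℂ) fun o => o.elim ((Real.log x : ℝ) : ℂ)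
        fun p => P Ω N Z x p.1 p.2) F = 0) →
      ∀ x : ℝ, x₀ < x → MvPolynomial.eval (fun o => o.elim ((1 / x : ℝ) : ℂ) fun o => o.elim ((Real.log x : ℝ) : ℂ)
        fun p => (g * P Ω N Z x) p.1 p.2) F = 0

/-- The isomorphisms `z ⊕ … ⊕ z ⊕ X_1 ⊕ … ⊕ X_k` of an `r`-fold sum of the object `ℚ(-1)` and of the `M_l` which respect the
polarisations (`Q_l` on the de Rham side, `B` on the Betti side), with values in `ℚ(-w_l)`, and the identifications of
`det M_l` with `ℚ(-d_l)` up to a twist (no condition if `B` is nondegenerate and alternating). For `r = 0` and `w_l = 1`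
these are the isomorphisms `X_1 ⊕ … ⊕ X_k` which respect the polarisations with values in one and the same object of rank
one. -/
def Iso {n k : ℕ} (r : ℕ) (B : Matrix (Fin n) (Fin n) ℂ) (Q : Fin k → Matrix (Fin n) (Fin n) ℂ) (w d : Fin k → ℤ)
    (δ : Fin k → ℂ) : Set (Matrix (Fin r ⊕ (Fin n × Fin k)) (Fin r ⊕ (Fin n × Fin k)) ℂ) :=
  {y | ∃ z : ℂ, z ≠ 0 ∧ ∃ X : Fin k → Matrix (Fin n) (Fin n) ℂ,
    y = Matrix.fromBlocks (z • 1) 0 0 (Matrix.blockDiagonal X) ∧
    ∀ l, X l * Q l * (X l).transpose = z ^ (w l) • B ∧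
      ((IsUnit B ∧ B.transpose = -B) ∨ (X l).det = δ l * z ^ (d l))}

/-- The rational numbers `x_1, …, x_k` have denominators at most `M^c`, all of them are in `[M, M + M^c]` or all of them are in
`[-M - M^c, -M]`, and they are at distance at least `G` of each other. -/
def Window {k : ℕ} (G M : ℕ) (c : ℝ) (x : Fin k → ℚ) : Prop :=
  (∀ l, ((x l).den : ℝ) ≤ (M : ℝ) ^ c) ∧
    ((∀ l, (M : ℝ) ≤ x l ∧ (x l : ℝ) ≤ M + (M : ℝ) ^ c) ∨ ∀ l, (M : ℝ) ≤ -x l ∧ (-x l : ℝ) ≤ M + (M : ℝ) ^ c) ∧
    ∀ i j, i ≠ j → (G : ℚ) ≤ |x i - x j|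

/-! ## Hypergeometric families: the operator `θ^(2m) - z ∏_j (θ^2 - β_j^2)`, `θ = z d/dz` -/

/-- The matrix of the intersection form: the entry `(i, j)` is `(-1)^i q_{i+j+1-n}` for `i + j + 1 ≥ n` and `0`
otherwise, where `q_l` are the coefficients of `∏_j (x^2 - β_j^2)` and `n = 2m`. -/
noncomputable def J {m : ℕ} (β : Fin m → ℚ) : Matrix (Fin (2 * m)) (Fin (2 * m)) ℂ :=
  Matrix.of fun i j => if 2 * m ≤ (i : ℕ) + j + 1 then (((-1) ^ (i : ℕ) *
    (∏ l, (Polynomial.X ^ 2 - Polynomial.C (β l ^ 2)) : Polynomial ℚ).coeff (i + j + 1 - 2 * m) : ℚ) : ℂ) else 0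

/-- The matrix with the entries `(θ^i f_j)(1 / t)`, `f_j` the Frobenius basis at `z = 0`: `f_j(z)` is the coefficient of `ε^j`
in the series `∑_k a_k(ε) z^(k + ε)`, where `a_k(ε) = ∏_{l < k} ∏_j ((l + ε)^2 - β_j^2) / (l + 1 + ε)^(2m)` and
`z^ε = ∑_l (log z)^l ε^l / l!`. (This series solves the equation `(θ^n - z ∏_j (θ^2 - β_j^2)) f = ε^n z^ε`.) -/
noncomputable def Y {m : ℕ} (β : Fin m → ℚ) (t : ℚ) : Matrix (Fin (2 * m)) (Fin (2 * m)) ℂ :=
  Matrix.of fun i j => ∑ l ∈ Finset.range ((j : ℕ) + 1), (Complex.log (1 / (t : ℂ)) ^ l / l.factorial) *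
    ∑' k : ℕ, ((coeff ((j : ℕ) - l) ((C (k : ℚ) + X : ℚ⟦X⟧) ^ (i : ℕ) *
      ∏ l ∈ Finset.range k, ((∏ j, ((C (l : ℚ) + X : ℚ⟦X⟧) ^ 2 - C (β j ^ 2))) *
        ((C ((l + 1 : ℕ) : ℚ) + X : ℚ⟦X⟧)⁻¹) ^ (2 * m))) : ℚ) : ℂ) * (1 / (t : ℂ)) ^ k

/-- The matrix with the entries `(θ^i f_j)(t^d)`, `f_j` the Frobenius basis at `z = ∞` for `β = a / d`:
`f_j(z) = ∑_k c_k(γ_j) z^(-γ_j - k)`, where `γ_j = e_j / d`, `e = (a_1, …, a_m, -a_1, …, -a_m)` and
`c_k(γ) = ∏_{l < k} (γ + l)^(2m) / ∏_j ((γ + l + 1)^2 - β_j^2)`. -/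
noncomputable def Yinf {m : ℕ} (a : Fin m → ℕ) (d : ℕ) (t : ℚ) : Matrix (Fin (2 * m)) (Fin (2 * m)) ℂ :=
  Matrix.of fun i j =>
    let e : ℤ := if h : (j : ℕ) < m then (a ⟨j, h⟩ : ℤ) else -(a ⟨j - m, by omega⟩ : ℤ)
    ∑' k : ℕ, (((-((e : ℚ) / d + k)) ^ (i : ℕ) * ∏ l ∈ Finset.range k, ((e : ℚ) / d + l) ^ (2 * m) /
      (∏ j, (Polynomial.X ^ 2 - Polynomial.C (((a j : ℚ) / d) ^ 2)) : Polynomial ℚ).eval ((e : ℚ) / d + l + 1) : ℚ) : ℂ) *
      (t : ℂ) ^ (-(e + d * k) : ℤ)

/-- the matrix of the leading coefficients `(-γ_j)^i` of `Yinf` -/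
noncomputable def L {m : ℕ} (a : Fin m → ℕ) (d : ℕ) : Matrix (Fin (2 * m)) (Fin (2 * m)) ℂ :=
  Matrix.of fun i j =>
    let e : ℤ := if h : (j : ℕ) < m then (a ⟨j, h⟩ : ℤ) else -(a ⟨j - m, by omega⟩ : ℤ)
    (((-((e : ℚ) / d)) ^ (i : ℕ) : ℚ) : ℂ)

/-- The theorem. -/
theorem result :
    -- general families; the numbers `x₀` and `G` depend only on the family
    (∀ (n : ℕ) (f : Polynomial ℤ) (A : Matrix (Fin n) (Fin n) (Polynomial ℤ)) (N : Matrix (Fin n) (Fin n) ℤ)
      (Z W : Matrix (Fin n) (Fin n) ℚ⟦X⟧), f ≠ 0 → N ^ n = 0 →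
      (∀ i j, ((f.map (Int.castRingHom ℚ) : Polynomial ℚ) : ℚ⟦X⟧) *
        (X * PowerSeries.derivative ℚ (Z i j) + ∑ k, C (N i k : ℚ) * Z k j) =
          ∑ k, Z i k * (((A k j).map (Int.castRingHom ℚ) : Polynomial ℚ) : ℚ⟦X⟧)) →
      (∀ i j, coeff 0 (Z i j) = if i = j then 1 else 0) → W * Z = 1 →
      (∀ i j, Gfunction (Z i j)) → (∀ i j, Gfunction (W i j)) →
      ∃ x₀ G : ℕ, ∀ (s r : ℕ) (C₀ : Matrix (Fin r) (Fin r) ℂ) (Ω : Matrix (Fin n) (Fin n) ℂ), IsUnit C₀ → IsUnit Ω →
        Few s C₀ Ω N → ∀ k D : ℕ, ∃ (c : ℝ) (N₀ : ℕ), 0 < c ∧ ∀ M : ℕ, N₀ ≤ M →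
          ∀ t : Fin k → ℚ, Window G M c t → (∀ l, IsUnit (P Ω N Z (t l))) ∧
            ∀ B : Matrix (Fin n) (Fin n) ℂ, Cls (s + if N = 0 then 0 else 1) B → Big Ω N Z x₀ B →
            ∀ K : Subfield ℂ, FiniteDimensional ℚ K → Module.finrank ℚ K ≤ D →
            ∀ T : Set (Matrix (Fin r ⊕ (Fin n × Fin k)) (Fin r ⊕ (Fin n × Fin k)) ℂ), Subtorsor K T →
            Matrix.fromBlocks C₀ 0 0 (Matrix.blockDiagonal fun l => P Ω N Z (t l)) ∈ T →
            -- 1: relative case
            (∀ (Q : Fin k → Matrix (Fin n) (Fin n) ℂ) (μ : Fin k → ℂ) (x : Matrix (Fin r) (Fin r) ℂ)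
              (X X' : Fin k → Matrix (Fin n) (Fin n) ℂ), (∀ l, μ l ≠ 0) →
              (∀ l, X l * Q l * (X l).transpose = μ l • B) → (∀ l, X' l * Q l * (X' l).transpose = μ l • B) →
              (∀ l, (IsUnit B ∧ B.transpose = -B) ∨ (X l).det = (X' l).det) →
              Matrix.fromBlocks x 0 0 (Matrix.blockDiagonal X) ∈ T → Matrix.fromBlocks x 0 0 (Matrix.blockDiagonal X') ∈ T) ∧
            -- 2: absolute case
            (0 < r → C₀ = (2 * Real.pi * Complex.I : ℂ) • 1 →
              ∀ (Q : Fin k → Matrix (Fin n) (Fin n) ℂ) (w d : Fin k → ℤ) (δ : Fin k → ℂ),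
              T ⊆ Iso r B Q w d δ → T = Iso r B Q w d δ)) ∧
    -- hypergeometric families near `z = 0`, fibres `z = 1 / t`
    (∀ (m : ℕ) (β : Fin m → ℚ), (∀ j, ∀ a : ℤ, β j ≠ a) →
      ∃ G : ℕ, ∀ (s w : ℕ) (Ω B : Matrix (Fin (2 * m)) (Fin (2 * m)) ℂ), s + 3 ≤ 2 * m → IsUnit Ω →
        Few s ((2 * Real.pi * Complex.I : ℂ) • (1 : Matrix (Fin 1) (Fin 1) ℂ)) Ω.transpose
          (Matrix.of fun i j => if (i : ℕ) = j + 1 then 1 else 0) →
        Ω.transpose * J β * Ω = (2 * Real.pi * Complex.I : ℂ) ^ w • B →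
        ∀ k D : ℕ, ∃ (c : ℝ) (N₀ : ℕ), 0 < c ∧ ∀ M : ℕ, N₀ ≤ M → ∀ t : Fin k → ℚ, Window G M c t →
          ∀ K : Subfield ℂ, FiniteDimensional ℚ K → Module.finrank ℚ K ≤ D → (∀ i j, B i j ∈ K) →
            (IsUnit B ∧ B.transpose = -B) ∧
            Omega K (Matrix.fromBlocks ((2 * Real.pi * Complex.I : ℂ) • (1 : Matrix (Fin 1) (Fin 1) ℂ)) 0 0
              (Matrix.blockDiagonal fun l => (Y β (t l) * Ω).transpose)) (Iso 1 B (fun _ => J β) (fun _ => w) 0 0)) ∧
    -- hypergeometric families near `z = ∞`, fibres `z = t^d`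
    ∀ (m d : ℕ) (a : Fin m → ℕ), 2 ≤ m → Function.Injective a → (∀ j, 0 < a j ∧ 2 * a j < d) →
      ∃ G : ℕ, ∀ (w : ℕ) (ω : Fin (2 * m) → ℂ) (V B : Matrix (Fin (2 * m)) (Fin (2 * m)) ℂ), 1 ≤ w → (∀ j, ω j ≠ 0) →
        IsUnit V → (∀ i j, IsAlgebraic ℚ (V i j)) →
        (L a d * (Matrix.diagonal ω * V)).transpose * J (fun l => (a l : ℚ) / d) * (L a d * (Matrix.diagonal ω * V)) =
          (2 * Real.pi * Complex.I : ℂ) ^ w • B →
        ∀ k D : ℕ, ∃ (c : ℝ) (N₀ : ℕ), 0 < c ∧ ∀ M : ℕ, N₀ ≤ M → ∀ t : Fin k → ℚ, Window G M c t →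
          ∀ K : Subfield ℂ, FiniteDimensional ℚ K → Module.finrank ℚ K ≤ D → (∀ i j, B i j ∈ K) →
            (IsUnit B ∧ B.transpose = -B) ∧
            Omega K (Matrix.fromBlocks (1 : Matrix (Fin 0) (Fin 0) ℂ) 0 0
              (Matrix.blockDiagonal fun l => (Yinf a d (t l) * (Matrix.diagonal ω * V)).transpose))
              (Iso 0 B (fun _ => J fun l => (a l : ℚ) / d) 1 0 0) := by
  refine ⟨fun n f A N Z W h1 h2 h3 h4 h5 h6 h7 => T44.GB.Fn.general n f A N Z W h1 h2 h3 h4 h5 h6 h7, ?_, ?_⟩
  · intro m β hβ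
    obtain ⟨G, h⟩ := T44.GB.Fn.hyper m β hβ
    refine ⟨G, fun s w Ω B hs hΩ hF hB k D => ?_⟩
    obtain ⟨c, N₀, hc, h1⟩ := h s w Ω B hs hΩ hF hB k D
    refine ⟨c, N₀, hc, fun M hM t ht K hK hKD hBK => ?_⟩
    obtain ⟨h2, h3⟩ := h1 M hM t ht K hK hKD hBK
    refine ⟨h2, ?_⟩
    have h4 : Iso 1 B (fun _ : Fin k => J β) (fun _ => w) 0 0 = T44.GB.Fn.respecting k β w B := by
      ext y
      constructor
      · rintro ⟨z, hz, X, rfl, hX⟩
        exact ⟨z, hz, X, rfl, fun l => by rw [← zpow_natCast]; exact (hX l).1⟩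
      · rintro ⟨z, hz, X, rfl, hX⟩
        exact ⟨z, hz, X, rfl, fun l => ⟨by rw [zpow_natCast]; exact hX l, Or.inl h2⟩⟩
    rw [h4]
    exact h3
  · intro m d a hm hi ha
    obtain ⟨G, h⟩ := T44.GB.Fn.orbi m d a hm hi ha
    refine ⟨G, fun w ω V B hw hω hV hVa hB k D => ?_⟩
    obtain ⟨c, N₀, hc, h1⟩ := h w ω V B hw hω hV hVa hB k D
    refine ⟨c, N₀, hc, fun M hM t ht K hK hKD hBK => ?_⟩
    obtain ⟨h2, h3⟩ := h1 M hM t ht K hK hKD hBK
    refine ⟨h2, ?_⟩
    have h4 : Iso 0 B (fun _ : Fin k => J fun l => (a l : ℚ) / d) 1 0 0 =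
        T44.GB.Fn.similitudes k (fun l => (a l : ℚ) / d) B := by
      ext y
      constructor
      · rintro ⟨z, hz, X, rfl, hX⟩
        refine ⟨z, hz, X, ?_, fun l => ?_⟩
        · rw [Subsingleton.elim (z • 1 : Matrix (Fin 0) (Fin 0) ℂ) 1]
          rfl
        · have h5 := (hX l).1
          rw [Pi.one_apply, zpow_one] at h5
          exact h5
      · rintro ⟨z, hz, X, rfl, hX⟩
        refine ⟨z, hz, X, ?_, fun l => ⟨?_, Or.inl h2⟩⟩
        · rw [Subsingleton.elim (z • 1 : Matrix (Fin 0) (Fin 0) ℂ) 1]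
          rfl
        · rw [Pi.one_apply, zpow_one]
          exact hX l
    rw [h4]
    exact h3

end Pool.Agent.Results.MP_f11a48_ag.FibresNearFewPeriods
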